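import Pool.Agent.H66.L.T9f66d723.W5h13.LS.A1

set_option autoImplicit false

open Filter Topology Set Metric

namespace Pool.Agent.W5h13.LS

/-! ### spaces with finitely many open sets -/

section fin

variable {Q : Type*} [TopologicalSpace Q]

/-- the points whose closure is minimal -/
def MinPt (Q : Type*) [TopologicalSpace Q] : Set Q := {q | ∀ r ∈ closure {q}, q ∈ closure {r}}

theorem closure_sub_of_mem {q r : Q} (h : r ∈ closure ({q} : Set Q)) :
    closure ({r} : Set Q) ⊆ closure {q} :=
  closure_minimal (singleton_subset_iff.mpr h) isClosed_closure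

theorem minPt_of_mem {q r : Q} (hq : q ∈ MinPt Q) (hr : r ∈ closure ({q} : Set Q)) :
    r ∈ MinPt Q := by
  intro r' hr'
  have h1 := hq r' (closure_sub_of_mem hr hr')
  exact closure_sub_of_mem h1 hr

theorem finite_closed (hfin : {U : Set Q | IsOpen U}.Finite) : {C : Set Q | IsClosed C}.Finite := by
  refine (hfin.image compl).subset ?_
  intro C hC
  exact ⟨Cᶜ, (hC : IsClosed C).isOpen_compl, compl_compl C⟩

theorem isClosed_union_cl (hfin : {U : Set Q | IsOpen U}.Finite) (A : Set Q) :
    IsClosed (⋃ q ∈ A, closure ({q} : Set Q)) := by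
  have h1 : (⋃ q ∈ A, closure ({q} : Set Q)) = ⋃₀ ((fun q => closure ({q} : Set Q)) '' A) := by
    rw [sUnion_image]
  rw [h1, sUnion_eq_biUnion]
  refine Set.Finite.isClosed_biUnion ((finite_closed hfin).subset ?_) ?_
  · rintro _ ⟨q, -, rfl⟩
    exact isClosed_closure
  · rintro _ ⟨q, -, rfl⟩
    exact isClosed_closure

theorem isClosed_minPt (hfin : {U : Set Q | IsOpen U}.Finite) : IsClosed (MinPt Q) := by
  have h1 : MinPt Q = ⋃ q ∈ MinPt Q, closure ({q} : Set Q) := by
    apply Subset.antisymm
    · intro q hq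
      exact mem_biUnion hq (subset_closure rfl)
    · intro r hr
      obtain ⟨q, hq, hr⟩ := mem_iUnion₂.mp hr
      exact minPt_of_mem hq hr
  rw [h1]
  exact isClosed_union_cl hfin _

theorem exists_minPt (hfin : {U : Set Q | IsOpen U}.Finite) (q : Q) :
    ∃ r ∈ closure ({q} : Set Q), r ∈ MinPt Q := by
  have hfin' : {C : Set Q | IsClosed C ∧ C.Nonempty ∧ C ⊆ closure {q}}.Finite :=
    (finite_closed hfin).subset fun C hC => hC.1
  obtain ⟨C, hC⟩ := hfin'.exists_minimal ⟨closure {q}, isClosed_closure, ⟨q, subset_closure rfl⟩,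
    Subset.rfl⟩
  obtain ⟨hC1, ⟨r, hr⟩, hC3⟩ := hC.prop
  refine ⟨r, hC3 hr, fun r' hr' => ?_⟩
  have h1 : closure ({r} : Set Q) ⊆ C := closure_minimal (singleton_subset_iff.mpr hr) hC1
  have h2 : closure ({r'} : Set Q) ⊆ C := closure_minimal (singleton_subset_iff.mpr (h1 hr')) hC1
  have h3 : C ⊆ closure {r'} :=
    hC.le_of_le ⟨isClosed_closure, ⟨r', subset_closure rfl⟩, h2.trans hC3⟩ h2
  exact h3 hr

/-- A surjective continuous self-map of a space with finitely many open sets pulls back the closed
sets bijectively. -/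
theorem closed_eq_preimage (hfin : {U : Set Q | IsOpen U}.Finite) {ψ : Q → Q} (hc : Continuous ψ)
    (hs : Function.Surjective ψ) {C : Set Q} (hC : IsClosed C) :
    ∃ D, IsClosed D ∧ C = ψ ⁻¹' D := by
  have hf := (finite_closed hfin).to_subtype
  let F : {C : Set Q | IsClosed C} → {C : Set Q | IsClosed C} := fun C =>
    ⟨ψ ⁻¹' C.1, (C.2 : IsClosed C.1).preimage hc⟩
  have hinj : Function.Injective F := by
    intro A B hAB
    exact Subtype.ext ((preimage_injective.mpr hs) (congrArg Subtype.val hAB))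
  obtain ⟨D, hD⟩ := (Finite.injective_iff_surjective.mp hinj) ⟨C, hC⟩
  exact ⟨D.1, D.2, (congrArg Subtype.val hD).symm⟩

theorem minPt_map (hfin : {U : Set Q | IsOpen U}.Finite) {ψ : Q → Q} (hc : Continuous ψ)
    (hs : Function.Surjective ψ) {q : Q} (hq : q ∈ MinPt Q) : ψ q ∈ MinPt Q := by
  intro r hr
  obtain ⟨D, hD, hDe⟩ := closed_eq_preimage hfin hc hs (isClosed_closure (s := ({q} : Set Q)))
  have h1 : ψ q ∈ D := by
    have : q ∈ ψ ⁻¹' D := hDe ▸ subset_closure rfl
    exact this
  have h2 : r ∈ D := closure_minimal (singleton_subset_iff.mpr h1) hD hr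
  obtain ⟨r', rfl⟩ := hs r
  have h3 : r' ∈ closure ({q} : Set Q) := by rw [hDe]; exact h2
  have h4 := hq r' h3
  have h5 := (image_closure_subset_closure_image hc (s := ({r'} : Set Q))) ⟨q, h4, rfl⟩
  rwa [image_singleton] at h5

/-- If the set of points with minimal closure has interior and the space is connected, then the
space is indiscrete. -/
theorem indiscrete_of_interior [ConnectedSpace Q] (hfin : {U : Set Q | IsOpen U}.Finite)
    (hint : (interior (MinPt Q)).Nonempty) (r : Q) : closure ({r} : Set Q) = univ := by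
  obtain ⟨q, hq⟩ := hint
  have hqM : q ∈ MinPt Q := interior_subset hq
  set F : Set Q := ⋃ q' ∈ {q' | q' ∈ MinPt Q ∧ q ∉ closure ({q'} : Set Q)}, closure ({q'} : Set Q)
    with hF
  have hFc : IsClosed F := isClosed_union_cl hfin _
  set U := interior (MinPt Q) \ F with hU
  have hUo : IsOpen U := isOpen_interior.sdiff hFc
  have hqU : q ∈ U := by
    refine ⟨hq, fun hqF => ?_⟩
    obtain ⟨q', ⟨-, h2⟩, h3⟩ := mem_iUnion₂.mp hqF
    exact h2 h3
  have hUq : U ⊆ closure {q} := by
    rintro q' ⟨h1, h2⟩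
    have h3 : q ∈ closure ({q'} : Set Q) := by
      by_contra h3
      exact h2 (mem_biUnion (show q' ∈ {q' | q' ∈ MinPt Q ∧ q ∉ closure ({q'} : Set Q)} from
        ⟨interior_subset h1, h3⟩) (subset_closure rfl))
    exact (interior_subset h1 : q' ∈ MinPt Q) q h3
  have hUe : closure {q} ⊆ U := by
    intro s hs
    by_contra hsU
    have h1 : closure ({s} : Set Q) ⊆ Uᶜ :=
      closure_minimal (singleton_subset_iff.mpr hsU) hUo.isClosed_compl
    exact h1 (hqM s hs) hqU
  have heq : closure ({q} : Set Q) = U := Subset.antisymm hUe hUq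
  have huniv : closure ({q} : Set Q) = univ :=
    IsClopen.eq_univ ⟨isClosed_closure, heq ▸ hUo⟩ ⟨q, subset_closure rfl⟩
  have h1 : q ∈ closure ({r} : Set Q) := hqM r (huniv ▸ mem_univ r)
  exact eq_univ_of_univ_subset (huniv ▸ closure_sub_of_mem h1)

theorem indiscrete_interior (h : ∀ r : Q, closure ({r} : Set Q) = univ) [Nonempty Q] :
    (interior (MinPt Q)).Nonempty := by
  have : MinPt Q = univ := by
    ext q
    simp only [mem_univ, iff_true]
    intro r _
    rw [h r]; trivial
  rw [this, interior_univ]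
  exact univ_nonempty

theorem indiscrete_homeo (h : ∀ r : Q, closure ({r} : Set Q) = univ) (q r : Q) :
    ∃ e : Q ≃ₜ Q, e q = r := by
  classical
  have hcl : ∀ C : Set Q, IsClosed C → C = ∅ ∨ C = univ := by
    intro C hC
    rcases C.eq_empty_or_nonempty with h1 | ⟨x, hx⟩
    · exact Or.inl h1
    · right
      have h2 : closure ({x} : Set Q) ⊆ C := closure_minimal (singleton_subset_iff.mpr hx) hC
      rw [h x] at h2
      exact univ_subset_iff.mp h2
  have hcont : ∀ e : Q → Q, Continuous e := by
    intro e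
    rw [continuous_iff_isClosed]
    intro C hC
    rcases hcl C hC with rfl | rfl
    · rw [preimage_empty]; exact isClosed_empty
    · rw [preimage_univ]; exact isClosed_univ
  exact ⟨{ Equiv.swap q r with
    continuous_toFun := hcont _
    continuous_invFun := hcont _ }, Equiv.swap_apply_left q r⟩

end fin

end Pool.Agent.W5h13.LS
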