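import Pool.Agent.H66.L.T9f66d723.W5h13.LS.A2
import Pool.Agent.H66.L.S8.H721R2.AnosovDef

set_option autoImplicit false

open Filter Topology Set Metric

namespace Pool.Agent.W5h13.LS

open Pool.Agent.H789R2.AN Pool.Agent.H721R2

variable {X : Type*} [MetricSpace X]

/-! ### iterates -/

theorem T1_unif [CompactSpace X] (g : X ≃ₜ X) (N : ℕ) {ε : ℝ} (hε : 0 < ε) : ∃ η > 0,
    ∀ k ≤ N, ∀ x y : X, dist x y < η → dist (g^[k] x) (g^[k] y) < ε := by
  induction N with
  | zero =>
    refine ⟨ε, hε, fun k hk x y hxy => ?_⟩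
    obtain rfl : k = 0 := by omega
    exact hxy
  | succ N ih =>
    obtain ⟨η, hη, h1⟩ := ih
    have hu : UniformContinuous (g^[N + 1]) :=
      CompactSpace.uniformContinuous_of_continuous (g.continuous.iterate _)
    obtain ⟨η', hη', h2⟩ := Metric.uniformContinuous_iff.mp hu ε hε
    refine ⟨min η η', lt_min hη hη', fun k hk x y hxy => ?_⟩
    rcases Nat.lt_or_ge N k with h3 | h3
    · obtain rfl : k = N + 1 := by omega
      exact h2 (hxy.trans_le (min_le_right _ _))
    · exact h1 k h3 x y (hxy.trans_le (min_le_left _ _))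

theorem iterHomeo_iter (f : X ≃ₜ X) (N k : ℕ) (x : X) : (iterHomeo f N)^[k] x = f^[N * k] x := by
  rw [Function.iterate_mul]; rfl

theorem iterHomeo_symm (f : X ≃ₜ X) (N : ℕ) : (iterHomeo f N).symm = iterHomeo f.symm N := by
  ext x; rfl

/-- `WS` for a homeomorphism and for an iterate. -/
theorem WS_iter_iff [CompactSpace X] (f : X ≃ₜ X) {N : ℕ} (hN : 1 ≤ N) (x y : X) :
    WS (iterHomeo f N) x y ↔ WS f x y := by
  constructor
  · intro h
    refine tendsto_order.mpr ⟨fun a ha => Eventually.of_forall fun n =>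
      lt_of_lt_of_le ha dist_nonneg, fun a ha => ?_⟩
    obtain ⟨η, hη, h1⟩ := T1_unif f N ha
    obtain ⟨m, hm⟩ := h.eventually_lt hη
    filter_upwards [eventually_ge_atTop (N * m)] with n hn
    have hnn : n = n % N + N * (n / N) := (Nat.mod_add_div n N).symm
    have h2 : m ≤ n / N := by
      rw [Nat.le_div_iff_mul_le (by omega)]
      rwa [Nat.mul_comm]
    have h3 := hm (n / N) h2
    rw [iterHomeo_iter, iterHomeo_iter] at h3
    have h4 := h1 (n % N) (Nat.mod_lt _ (by omega)).le _ _ h3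
    rw [← Function.iterate_add_apply, ← Function.iterate_add_apply, ← hnn] at h4
    exact h4
  · intro h
    have h1 : Tendsto (fun k : ℕ => N * k) atTop atTop :=
      tendsto_id.const_mul_atTop' (by omega)
    have h2 : Tendsto (fun n : ℕ => dist (f^[n] x) (f^[n] y)) atTop (𝓝 0) := h
    have h3 := h2.comp h1
    refine h3.congr fun k => ?_
    rw [Function.comp_apply, iterHomeo_iter, iterHomeo_iter]

theorem univ_of_trans [CompactSpace X] {g : X ≃ₜ X} {N : ℕ}
    (hN : 1 ≤ N) {c : ℝ} (h : LP (iterHomeo g N) c) (ht : TopTransitive (g : X → X)) {A : Set X}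
    (hA : IsClosed A) (hne : A.Nonempty) (hs : Sat (iterHomeo g N) A)
    (hinv : ∀ x, g x ∈ A ↔ x ∈ A) : A = univ := by
  rw [eq_univ_iff_forall]
  intro y
  by_contra hy
  obtain ⟨r, hr, hball⟩ := Metric.isOpen_iff.mp hA.isOpen_compl y hy
  obtain ⟨η, hη, h1⟩ := T1_unif g N (half_pos hr)
  obtain ⟨δ, hδ, hlp⟩ := h.lp (min (η / 2) c) (lt_min (half_pos hη) h.c_pos)
  obtain ⟨a, ha⟩ := hne
  obtain ⟨n, z, ⟨x, hx, rfl⟩, hz⟩ := ht (ball a δ) (ball y (r / 2)) isOpen_ball
    ⟨a, mem_ball_self hδ⟩ isOpen_ball ⟨y, mem_ball_self (half_pos hr)⟩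
  obtain ⟨w, hw1, hw2⟩ := hlp x a (mem_ball.mp hx)
  have hwA : w ∈ A := hs a ha w (WS.of_SR (h.cU _ _ (hw2.mono (min_le_right _ _))))
  have hnn : n = n % N + N * (n / N) := (Nat.mod_add_div n N).symm
  have h2 := hw1 (n / N)
  rw [iterHomeo_iter, iterHomeo_iter] at h2
  have h3 := h1 (n % N) (Nat.mod_lt _ (by omega)).le _ _
    (h2.trans_lt ((min_le_left _ _).trans_lt (half_lt_self hη)))
  rw [← Function.iterate_add_apply, ← Function.iterate_add_apply, ← hnn] at h3
  have h4 : g^[n] w ∈ A := (inv_iter hinv n w).mpr hwA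
  have h5 : g^[n] w ∈ ball y r := by
    rw [mem_ball]
    have h6 := mem_ball.mp hz
    have h7 := dist_triangle_left (g^[n] w) y (g^[n] x)
    linarith
  exact hball h5 h4

/-! ### attractors -/

theorem ws_iter_back {g φ : X ≃ₜ X} (hs : ∀ x y, WS g (φ x) (φ y) → WS g x y) (m : ℕ) {x y : X}
    (h : WS g (φ^[m] x) (φ^[m] y)) : WS g x y := by
  induction m with
  | zero => exact h
  | succ m ih =>
    rw [Function.iterate_succ_apply', Function.iterate_succ_apply'] at h
    exact ih (hs _ _ h)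

/-- **Theorem A'**: an attractor of `g` is saturated by the stable sets of every homeomorphism `φ`
which permutes the stable leaves of `g`, preserves the attractor and contracts the unstable leaves
of `g`. -/
theorem theoremA' [CompactSpace X] {g φ : X ≃ₜ X} {c : ℝ} (h : LP g c)
    (hs : ∀ x y, WS g (φ x) (φ y) → WS g x y) (hsub : ∀ x y, WS g.symm x y → WS φ x y) {A : Set X}
    (hA : IsAtt g A) (hφ : ∀ x, φ x ∈ A ↔ x ∈ A) : ∀ x ∈ A, ∀ y, WS φ x y → y ∈ A := by
  have step1 : ∀ x ∈ A, ∀ y, WS φ x y → y ∈ Bas g A := by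
    intro x hx y hxy
    obtain ⟨δ, hδ, hnear⟩ := h.near
    obtain ⟨m, hm⟩ := hxy.eventually_lt hδ
    have h1 := hm m le_rfl
    rw [dist_comm] at h1
    obtain ⟨z, hz, h2⟩ := hnear A hA _ ((inv_iter hφ m x).mpr hx) _ h1
    refine ⟨φ.symm^[m] z, (inv_iter (inv_symm hφ) m z).mpr hz, ?_⟩
    apply ws_iter_back hs m
    rw [iterR]
    exact WS.of_SR (h.cS _ _ h2)
  intro x hx y hxy
  by_contra hy
  obtain ⟨w, hw, h1⟩ := exists_repeller h hA hy
  exact hw (step1 x hx w (hxy.trans (hsub _ _ h1)))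

/-- A closed backward invariant set in the basin is in the attractor. -/
theorem subset_of_basin [CompactSpace X] {g : X ≃ₜ X} {c : ℝ} (h : LP g c) {A K : Set X}
    (hA : IsAtt g A) (hK : IsClosed K) (hKi : ∀ x ∈ K, g.symm x ∈ K) (hKB : K ⊆ Bas g A) :
    K ⊆ A := by
  intro y hy
  obtain ⟨δ, hδ, hnear⟩ := h.near
  have hyn : ∀ n : ℕ, g.symm^[n] y ∈ K := by
    intro n
    induction n with
    | zero => exact hy
    | succ n ih =>
      rw [Function.iterate_succ_apply']
      exact hKi _ ih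
  obtain ⟨z, hzK, φ, hφ, hlim⟩ := hK.isCompact.tendsto_subseq hyn
  obtain ⟨a, ha, hza⟩ := hKB hzK
  obtain ⟨m, hm⟩ := hza.eventually_lt (half_pos hδ)
  have h2 := hm m le_rfl
  have h3 : Tendsto (fun n => g^[m] (g.symm^[φ n] y)) atTop (𝓝 (g^[m] z)) :=
    ((g.continuous.iterate m).tendsto z).comp hlim
  have h4 := tendsto_iff_dist_tendsto_zero.mp h3
  rw [← hA.closed.closure_eq, Metric.mem_closure_iff]
  intro ε hε
  obtain ⟨M, hM⟩ := eventually_atTop.mp ((tendsto_order.mp (tendsto_c c)).2 ε hε)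
  obtain ⟨n, hn1, hn2⟩ := (((tendsto_order.mp h4).2 _ (half_pos hδ)).and
    (eventually_ge_atTop (m + M))).exists
  have hφn : m + M ≤ φ n := hn2.trans (hφ.id_le n)
  have h6 : dist (g^[m] (g.symm^[φ n] y)) (g^[m] a) < δ := by
    have := dist_triangle (g^[m] (g.symm^[φ n] y)) (g^[m] z) (g^[m] a)
    linarith
  obtain ⟨z', hz', h7⟩ := hnear A hA _ ((inv_iter hA.inv m a).mpr ha) _ h6
  have h8 := h.cS _ _ h7 (φ n - m)
  have e1 : g^[φ n - m] (g^[m] (g.symm^[φ n] y)) = y := by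
    rw [← Function.iterate_add_apply, Nat.sub_add_cancel (by omega), iterR]
  rw [e1] at h8
  exact ⟨_, (inv_iter hA.inv _ z').mpr hz', lt_of_le_of_lt h8 (hM _ (by omega))⟩

/-- If a closed set `A` saturated by unstable leaves meets a closed set `R` which is minimal among
the closed sets saturated by stable leaves, then `A` has interior.  (All such sets are assumed to be
`g`-invariant.) -/
theorem interior_of_meet [CompactSpace X] {g : X ≃ₜ X} {c : ℝ} (h : LP g c)
    (hgs : ∀ B, IsClosed B → Sat g.symm B → ∀ x, g x ∈ B ↔ x ∈ B) {A R : Set X}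
    (hA : IsAtt g A) (hR : IsClosed R) (hRs : Sat g.symm R)
    (hmin : ∀ B, IsClosed B → Sat g.symm B → B ⊆ R → B.Nonempty → R ⊆ B)
    {x : X} (hxA : x ∈ A) (hxR : x ∈ R) : x ∈ interior A := by
  have hBsat : ∀ y ∈ Bas g A, ∀ z, WS g y z → z ∈ Bas g A := by
    rintro y ⟨a, ha, hya⟩ z hyz
    exact ⟨a, ha, (hyz.symm').trans hya⟩
  have hRB : R ⊆ Bas g A := by
    by_contra hcon
    have hne : (R \ Bas g A).Nonempty := by
      rw [not_subset] at hcon
      obtain ⟨y, hy, hyB⟩ := hcon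
      exact ⟨y, hy, hyB⟩
    have h1 : IsClosed (R \ Bas g A) := hR.sdiff (isOpen_bas h hA)
    have h2 : Sat g.symm (R \ Bas g A) := by
      intro y hy z hyz
      refine ⟨hRs y hy.1 z hyz, fun hz => hy.2 (hBsat z hz y ?_)⟩
      have hyz' : WS g y z := hyz
      exact hyz'.symm'
    exact (hmin _ h1 h2 sdiff_subset hne hxR).2 (subset_bas g A hxA)
  have hRA : R ⊆ A :=
    subset_of_basin h hA hR (fun y hy => (inv_symm (hgs R hR hRs) y).mpr hy) hRB
  rw [mem_interior_iff_mem_nhds]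
  obtain ⟨δ, hδ, hlp⟩ := h.lp c h.c_pos
  refine mem_of_superset (ball_mem_nhds x hδ) fun y hy => ?_
  obtain ⟨z, hz1, hz2⟩ := hlp x y (by rw [dist_comm]; exact hy)
  have hzR : z ∈ R := hRs x hxR z (WS.of_SR (h.cS _ _ hz1))
  exact hA.sat z (hRA hzR) y (WS.of_SR (h.cU _ _ hz2)).symm'

/-- The saturation of an open set is open. -/
theorem isOpen_saturation [CompactSpace X] {g : X ≃ₜ X} {c : ℝ} (h : LP g c) {U : Set X}
    (hU : IsOpen U) : IsOpen {y | ∃ x ∈ U, WS g.symm x y} := by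
  rw [isOpen_iff_mem_nhds]
  rintro y ⟨x, hx, hxy⟩
  obtain ⟨η, hη, hball⟩ := Metric.isOpen_iff.mp hU x hx
  obtain ⟨δ, hδ, hlp⟩ := h.lp (min (η / 2) c) (lt_min (half_pos hη) h.c_pos)
  obtain ⟨m, hm⟩ := hxy.eventually_lt (half_pos hδ)
  have h1 := hm m le_rfl
  have h2 : {s | dist (g.symm^[m] s) (g.symm^[m] y) < δ / 2} ∈ 𝓝 y := by
    have hcont : Continuous fun s => dist (g.symm^[m] s) (g.symm^[m] y) :=
      (g.symm.continuous.iterate m).dist continuous_const
    exact (isOpen_lt hcont continuous_const).mem_nhds (by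
      show dist (g.symm^[m] y) (g.symm^[m] y) < δ / 2
      rw [dist_self]; linarith)
  refine mem_of_superset h2 fun y' hy' => ?_
  have hy'' : dist (g.symm^[m] y') (g.symm^[m] y) < δ / 2 := hy'
  have h3 : dist (g.symm^[m] x) (g.symm^[m] y') < δ := by
    have := dist_triangle (g.symm^[m] x) (g.symm^[m] y) (g.symm^[m] y')
    rw [dist_comm (g.symm^[m] y) (g.symm^[m] y')] at this
    linarith
  obtain ⟨z, hz1, hz2⟩ := hlp _ _ h3
  refine ⟨g^[m] z, hball ?_, ?_⟩
  · have h4 := hz1 m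
    rw [iterR] at h4
    rw [mem_ball, dist_comm]
    exact h4.trans_lt ((min_le_left _ _).trans_lt (half_lt_self hη))
  · have h4 : WS g.symm (g.symm^[m] y') z :=
      WS.of_SR (h.cU _ _ (hz2.mono (min_le_right _ _)))
    rw [← WS.iter m, iterL]
    exact h4.symm'

end Pool.Agent.W5h13.LS
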