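import Pool.Agent.H66.L.S8.H789R2.AN.Span

set_option autoImplicit false

open Filter Topology Set Metric

namespace Pool.Agent.W5h13.LS

open Pool.Agent.H789R2.AN Pool.Agent.H721R2

variable {X E : Type*} [MetricSpace X] [NormedAddCommGroup E] [NormedSpace ℝ E]

/-- The local unstable set contains points in every unstable direction. -/
theorem direction' [CompactSpace X] (S : HypSys X E) (η : ℝ) (hη : 0 < η) :
    ∃ r > 0, ∀ x, ∀ w ∈ S.Vu x, ‖w‖ < r →
      ∃ z, S.URel (12 * (S.K * ‖w‖)) x z ∧ ‖S.e z - S.e x - w‖ ≤ η * ‖w‖ := by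
  have hK := S.one_le_K
  have hK0 : 0 < S.K := by linarith
  set K := S.K with hKdef
  set η₁ := min (1 / 4) (η / (200 * K ^ 2)) with hη₁
  have hη₁0 : 0 < η₁ := lt_min (by norm_num) (by positivity)
  have hη₁1 : η₁ ≤ 1 / 4 := min_le_left _ _
  have hη₁2 : 200 * K ^ 2 * η₁ ≤ η := by
    have : η₁ ≤ η / (200 * K ^ 2) := min_le_right _ _
    rw [le_div_iff₀ (by positivity)] at this
    linarith
  obtain ⟨r2, hr2, hA2⟩ := S.A2 η₁ hη₁0
  obtain ⟨ε₀, hε₀, hlp⟩ := S.local_product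
  obtain ⟨c, hc⟩ := exists_LP S
  obtain ⟨εs, hεs, hcS⟩ := S.coneS η₁ hη₁0 (by linarith)
  obtain ⟨εu, hεu, hcU⟩ := S.symm.coneS η₁ hη₁0 (by linarith)
  obtain ⟨r3, hr3, hA3⟩ := S.A3 η₁ hη₁0
  set ρ := min r2 (min ε₀ (min (min c εs) (min εu (r3 / 2)))) with hρ
  have hρ0 : 0 < ρ := lt_min hr2 (lt_min hε₀ (lt_min (lt_min hc.c_pos hεs)
    (lt_min hεu (by positivity))))
  refine ⟨ρ / (20 * K), by positivity, fun x w hw hwr => ?_⟩
  have hw20 : 20 * K * ‖w‖ ≤ ρ := by
    rw [lt_div_iff₀ (by positivity)] at hwr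
    linarith
  have hn0 : 0 ≤ ‖w‖ := norm_nonneg w
  have hKw : ‖w‖ ≤ K * ‖w‖ := by nlinarith
  have hρ2 : ρ ≤ r2 := min_le_left _ _
  have hρε₀ : ρ ≤ ε₀ := (min_le_right _ _).trans (min_le_left _ _)
  have hρ3 : ρ ≤ min (min c εs) (min εu (r3 / 2)) := (min_le_right _ _).trans (min_le_right _ _)
  have hρc : ρ ≤ c := hρ3.trans ((min_le_left _ _).trans (min_le_left _ _))
  have hρs : ρ ≤ εs := hρ3.trans ((min_le_left _ _).trans (min_le_right _ _))
  have hρu : ρ ≤ εu := hρ3.trans ((min_le_right _ _).trans (min_le_left _ _))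
  have hρr3 : ρ ≤ r3 / 2 := hρ3.trans ((min_le_right _ _).trans (min_le_right _ _))
  by_cases hw0 : w = 0
  · refine ⟨x, fun k => ?_, ?_⟩
    · rw [dist_self]; positivity
    · rw [hw0]; simp
  have hwpos : 0 < ‖w‖ := norm_pos_iff.mpr hw0
  have hdist : ∀ p q : X, dist p q = ‖S.e q - S.e p‖ := fun p q => by
    rw [dist_comm, S.isom]
  -- the point y'
  obtain ⟨y, hy⟩ := hA2 x 0 (Submodule.zero_mem _) w hw (by
    rw [zero_add]
    have : 1 * ‖w‖ < 20 * K * ‖w‖ := mul_lt_mul_of_pos_right (by linarith) hwpos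
    linarith)
  rw [zero_add] at hy
  have hxy : dist x y ≤ 5 / 4 * ‖w‖ := by
    rw [hdist]
    have h1 := norm_add_le (S.e y - S.e x - w) w
    rw [sub_add_cancel] at h1
    have h2 : η₁ * ‖w‖ ≤ 1 / 4 * ‖w‖ := mul_le_mul_of_nonneg_right hη₁1 hn0
    linarith
  have hKd : K * dist x y ≤ 5 / 4 * (K * ‖w‖) := by
    have := mul_le_mul_of_nonneg_left hxy hK0.le
    linarith
  obtain ⟨z, hz1, hz2⟩ := hlp y x (by
    rw [dist_comm]
    have : 20 * K * ‖w‖ = 20 * (K * ‖w‖) := by ring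
    linarith)
  rw [dist_comm y x] at hz1 hz2
  have h12 : 9 * K * dist x y ≤ 12 * (K * ‖w‖) := by
    have : 9 * K * dist x y = 9 * (K * dist x y) := by ring
    linarith
  have h12' : 12 * (K * ‖w‖) ≤ ρ := by
    have : 20 * K * ‖w‖ = 20 * (K * ‖w‖) := by ring
    have : 0 ≤ K * ‖w‖ := by positivity
    linarith
  have hz1' : S.SRel ρ z y := (hz1.symm).mono (h12.trans h12')
  have hz2' : S.URel ρ x z := (hz2.symm).mono (h12.trans h12')
  have hdzy : dist z y ≤ 12 * (K * ‖w‖) := (hz1.symm).dist_le.trans h12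
  have hdxz : dist x z ≤ 12 * (K * ‖w‖) := (hz2.symm).dist_le.trans h12
  refine ⟨z, (hz2.symm).mono h12, ?_⟩
  obtain ⟨u, hu, s, hs, h1, -, h2⟩ := hcU x z (fun k => (hz2' k).trans hρu)
  obtain ⟨s₁, hs₁, u₁, hu₁, h3, -, h4⟩ := hcS z y (fun k => (hz1' k).trans hρs)
  have h1' : ‖S.e z - S.e x - (u + s)‖ ≤ η₁ * dist x z := h1
  -- transport s₁ to x
  obtain ⟨s₂, hs₂, h5⟩ := hA3 z x (by
    rw [dist_comm]
    have := hz2'.dist_le
    linarith) s₁ hs₁
  have hb1 : η₁ * dist x z ≤ 12 * K * (η₁ * ‖w‖) := by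
    calc η₁ * dist x z ≤ η₁ * (12 * (K * ‖w‖)) := mul_le_mul_of_nonneg_left hdxz hη₁0.le
      _ = _ := by ring
  have hb2 : η₁ * dist z y ≤ 12 * K * (η₁ * ‖w‖) := by
    calc η₁ * dist z y ≤ η₁ * (12 * (K * ‖w‖)) := mul_le_mul_of_nonneg_left hdzy hη₁0.le
      _ = _ := by ring
  have hs₁n : ‖s₁‖ ≤ 18 * (K * ‖w‖) := by
    have e1 : s₁ = (S.e y - S.e z) - (S.e y - S.e z - (s₁ + u₁)) - u₁ := by abel
    have h6 := norm_sub_le ((S.e y - S.e z) - (S.e y - S.e z - (s₁ + u₁))) u₁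
    have h7 := norm_sub_le (S.e y - S.e z) (S.e y - S.e z - (s₁ + u₁))
    rw [← e1] at h6
    rw [← hdist z y] at h7
    have h8 : η₁ * dist z y ≤ 1 / 4 * dist z y := mul_le_mul_of_nonneg_right hη₁1 dist_nonneg
    linarith
  have h6 : ‖s₁ - s₂‖ ≤ 18 * K * (η₁ * ‖w‖) := by
    calc ‖s₁ - s₂‖ ≤ η₁ * ‖s₁‖ := h5
      _ ≤ η₁ * (18 * (K * ‖w‖)) := mul_le_mul_of_nonneg_left hs₁n hη₁0.le
      _ = _ := by ring
  -- comparison
  have h7 : ‖s₂ + (u - w)‖ ≤ 67 * K * (η₁ * ‖w‖) := by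
    have e1 : s₂ + (u - w) = (S.e y - S.e x - w) - (S.e y - S.e z - (s₁ + u₁)) -
        (S.e z - S.e x - (u + s)) - s - u₁ - (s₁ - s₂) := by abel
    rw [e1]
    have h8 := norm_sub_le ((S.e y - S.e x - w) - (S.e y - S.e z - (s₁ + u₁)) -
        (S.e z - S.e x - (u + s)) - s - u₁) (s₁ - s₂)
    have h9 := norm_sub_le ((S.e y - S.e x - w) - (S.e y - S.e z - (s₁ + u₁)) -
        (S.e z - S.e x - (u + s)) - s) u₁
    have h10 := norm_sub_le ((S.e y - S.e x - w) - (S.e y - S.e z - (s₁ + u₁)) -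
        (S.e z - S.e x - (u + s))) s
    have h11 := norm_sub_le ((S.e y - S.e x - w) - (S.e y - S.e z - (s₁ + u₁)))
        (S.e z - S.e x - (u + s))
    have h13 := norm_sub_le (S.e y - S.e x - w) (S.e y - S.e z - (s₁ + u₁))
    have h14 : η₁ * ‖w‖ ≤ K * (η₁ * ‖w‖) := by
      have : 0 ≤ η₁ * ‖w‖ := by positivity
      nlinarith
    linarith
  obtain ⟨-, h8⟩ := S.angle x s₂ hs₂ (u - w) (Submodule.sub_mem _ hu hw)
  have h9 : ‖u - w‖ ≤ 67 * K ^ 2 * (η₁ * ‖w‖) := by
    calc ‖u - w‖ ≤ K * ‖s₂ + (u - w)‖ := h8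
      _ ≤ K * (67 * K * (η₁ * ‖w‖)) := mul_le_mul_of_nonneg_left h7 hK0.le
      _ = _ := by ring
  have h10 : ‖S.e z - S.e x - w‖ ≤ 24 * K * (η₁ * ‖w‖) + 67 * K ^ 2 * (η₁ * ‖w‖) := by
    have e1 : S.e z - S.e x - w = (S.e z - S.e x - (u + s)) + s + (u - w) := by abel
    rw [e1]
    have h11 := norm_add_le ((S.e z - S.e x - (u + s)) + s) (u - w)
    have h13 := norm_add_le (S.e z - S.e x - (u + s)) s
    linarith
  have h11 : K ≤ K ^ 2 := by nlinarith
  have h13 : 0 ≤ η₁ * ‖w‖ := by positivity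
  have h14 : 24 * K * (η₁ * ‖w‖) ≤ 24 * K ^ 2 * (η₁ * ‖w‖) :=
    mul_le_mul_of_nonneg_right (by linarith) h13
  have h15 : 200 * K ^ 2 * η₁ * ‖w‖ ≤ η * ‖w‖ := mul_le_mul_of_nonneg_right hη₁2 hn0
  have h16 : 0 ≤ K ^ 2 * (η₁ * ‖w‖) := by positivity
  have e2 : 200 * K ^ 2 * η₁ * ‖w‖ = 200 * (K ^ 2 * (η₁ * ‖w‖)) := by ring
  rw [e2] at h15
  have e3 : 24 * K ^ 2 * (η₁ * ‖w‖) = 24 * (K ^ 2 * (η₁ * ‖w‖)) := by ring
  have e4 : 67 * K ^ 2 * (η₁ * ‖w‖) = 67 * (K ^ 2 * (η₁ * ‖w‖)) := by ring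
  rw [e3] at h14
  rw [e4] at h10
  linarith

/-- **Chains in unstable plaques.**  A map which is `Q`-Lipschitz on infinitesimally unstable pairs
is `4 Q`-Lipschitz on local unstable sets. -/
theorem chain_lip [CompactSpace X] (S : HypSys X E) : ∃ ρ > 0, ∀ (χ : X → X) (η r Q : ℝ), 0 < η →
    0 < r → 0 ≤ Q →
    (∀ x y, dist x y < r → (∃ w ∈ S.Vu x, ‖S.e y - S.e x - w‖ ≤ η * dist x y) →
      dist (χ x) (χ y) ≤ Q * dist x y) →
    ∀ x y, S.URel ρ x y → dist (χ x) (χ y) ≤ 4 * Q * dist x y := by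
  obtain ⟨ε₁, hε₁, hcontr⟩ := contrS_iter S.symm
  obtain ⟨ε₂, hε₂, hcone⟩ := S.symm.coneS (1 / 16) (by norm_num) (by norm_num)
  have hK := S.one_le_K
  have hK0 : 0 < S.K := by linarith
  set ρ₀ := min ε₁ ε₂ with hρ₀
  have hρ₀0 : 0 < ρ₀ := lt_min hε₁ hε₂
  have hdist : ∀ p q : X, dist p q = ‖S.e q - S.e p‖ := fun p q => by
    rw [dist_comm, S.isom]
  -- contraction turns `URel ρ₀` into `URel dist`
  have hself : ∀ x y, S.URel ρ₀ x y → S.URel (dist x y) x y := by
    intro x y hxy n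
    have h1 := hcontr x y (fun k => (hxy k).trans (min_le_left _ _)) n
    have h2 : dist (S.g.symm^[n] x) (S.g.symm^[n] y) ≤ (1 / 2) ^ n * dist x y := h1
    have h3 : (1 / 2 : ℝ) ^ n ≤ 1 := pow_le_one₀ (by norm_num) (by norm_num)
    have h4 : (1 / 2 : ℝ) ^ n * dist x y ≤ 1 * dist x y :=
      mul_le_mul_of_nonneg_right h3 dist_nonneg
    linarith
  refine ⟨ρ₀ / 2, by positivity, fun χ η r Q hη hr hQ hχ x y hxy => ?_⟩
  set η' := min η (1 / 16) with hη'
  have hη'0 : 0 < η' := lt_min hη (by norm_num)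
  have hη'1 : η' ≤ 1 / 16 := min_le_right _ _
  have hη'2 : η' ≤ η := min_le_left _ _
  obtain ⟨r₁, hr₁, hdir⟩ := direction' S (η' / 2) (by positivity)
  obtain ⟨ε₃, hε₃, hcone3⟩ := S.symm.coneS (η' / 2) (by positivity) (by linarith)
  set τ := min r ε₃ with hτ
  have hτ0 : 0 < τ := lt_min hr hε₃
  set δ := min (min (r₁ / 2) (r / 4)) (min (ρ₀ / (24 * S.K)) (τ / 2)) with hδ
  have hδ0 : 0 < δ := lt_min (lt_min (by positivity) (by positivity))
    (lt_min (by positivity) (by positivity))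
  have hδ1 : δ ≤ r₁ / 2 := (min_le_left _ _).trans (min_le_left _ _)
  have hδ2 : δ ≤ r / 4 := (min_le_left _ _).trans (min_le_right _ _)
  have hδ3 : 12 * (S.K * δ) ≤ ρ₀ / 2 := by
    have h1 : δ ≤ ρ₀ / (24 * S.K) := (min_le_right _ _).trans (min_le_left _ _)
    rw [le_div_iff₀ (by positivity)] at h1
    linarith
  have hδ4 : δ ≤ τ / 2 := (min_le_right _ _).trans (min_le_right _ _)
  -- the last step
  have hlast : ∀ z, S.URel (dist z y) z y → dist z y < τ → dist (χ z) (χ y) ≤ 4 * Q * dist z y := by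
    intro z hz hzy
    have hd0 : 0 ≤ dist z y := dist_nonneg
    obtain ⟨u, hu, s, hs, h1, -, h3⟩ := hcone3 z y
      (fun k => (hz k).trans (hzy.le.trans (min_le_right _ _)))
    have h1' : ‖S.e y - S.e z - (u + s)‖ ≤ η' / 2 * dist z y := h1
    have h4 : ‖S.e y - S.e z - u‖ ≤ η * dist z y := by
      have e1 : S.e y - S.e z - u = (S.e y - S.e z - (u + s)) + s := by abel
      rw [e1]
      have h5 := norm_add_le (S.e y - S.e z - (u + s)) s
      have h6 : η' * dist z y ≤ η * dist z y := mul_le_mul_of_nonneg_right hη'2 hd0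
      linarith
    have h5 := hχ z y (hzy.trans_le (min_le_left _ _)) ⟨u, hu, h4⟩
    have h6 : 0 ≤ Q * dist z y := mul_nonneg hQ hd0
    linarith
  have main : ∀ n : ℕ, ∀ z, S.URel (dist z y) z y → dist z y ≤ ρ₀ / 2 →
      dist z y < τ + n * (δ / 2) → dist (χ z) (χ y) ≤ 4 * Q * dist z y := by
    intro n
    induction n with
    | zero =>
      intro z hz _ h2
      apply hlast z hz
      simpa using h2
    | succ n ih =>
      intro z hz h1 h2
      by_cases hzy : dist z y < τ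
      · exact hlast z hz hzy
      push Not at hzy
      have hd0 : 0 < dist z y := lt_of_lt_of_le hτ0 hzy
      set d := dist z y with hd
      obtain ⟨u, hu, s, hs, h3, -, h4⟩ := hcone z y
        (fun k => (hz k).trans (h1.trans ((by linarith : ρ₀ / 2 ≤ ρ₀).trans (min_le_right _ _))))
      have h3' : ‖S.e y - S.e z - (u + s)‖ ≤ 1 / 16 * d := h3
      set v := S.e y - S.e z with hv
      have hvd : ‖v‖ = d := by rw [hd, hdist]
      have h5 : ‖v - u‖ ≤ 1 / 8 * d := by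
        have e1 : v - u = (v - (u + s)) + s := by abel
        rw [e1]
        have h6 := norm_add_le (v - (u + s)) s
        linarith
      have h6 : |‖u‖ - d| ≤ 1 / 8 * d := by
        have h7 := abs_norm_sub_norm_le u v
        rw [hvd, norm_sub_rev u v] at h7
        linarith
      have hupos : 0 < ‖u‖ := by
        rw [abs_le] at h6
        linarith [h6.1]
      set w := (δ / ‖u‖) • u with hw
      have hwn : ‖w‖ = δ := by
        rw [hw, norm_smul, Real.norm_eq_abs, abs_of_pos (by positivity)]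
        field_simp
      have hwV : w ∈ S.Vu z := Submodule.smul_mem _ _ hu
      obtain ⟨z', hz1, hz2⟩ := hdir z w hwV (by rw [hwn]; linarith)
      rw [hwn] at hz1 hz2
      -- distances
      have hδd : δ ≤ d := by linarith
      have h7 : ‖v - w‖ ≤ d - δ + δ / 4 := by
        have e1 : v - w = (1 - δ / d) • v + (δ / d) • (v - u) + (δ / d - δ / ‖u‖) • u := by
          rw [hw]
          module
        have h8 : ‖(1 - δ / d) • v‖ = d - δ := by
          rw [norm_smul, Real.norm_eq_abs, abs_of_nonneg (by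
            rw [sub_nonneg, div_le_one hd0]; exact hδd), hvd]
          field_simp
        have h9 : ‖(δ / d) • (v - u)‖ ≤ δ / 8 := by
          rw [norm_smul, Real.norm_eq_abs, abs_of_pos (by positivity)]
          calc δ / d * ‖v - u‖ ≤ δ / d * (1 / 8 * d) :=
                mul_le_mul_of_nonneg_left h5 (by positivity)
            _ = δ / 8 := by field_simp
        have h10 : ‖(δ / d - δ / ‖u‖) • u‖ ≤ δ / 8 := by
          rw [norm_smul, Real.norm_eq_abs]
          have e2 : δ / d - δ / ‖u‖ = (‖u‖ - d) * (δ / (d * ‖u‖)) := by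
            field_simp
          rw [e2, abs_mul, abs_of_pos (by positivity : 0 < δ / (d * ‖u‖))]
          calc |‖u‖ - d| * (δ / (d * ‖u‖)) * ‖u‖ ≤ 1 / 8 * d * (δ / (d * ‖u‖)) * ‖u‖ := by
                apply mul_le_mul_of_nonneg_right _ hupos.le
                exact mul_le_mul_of_nonneg_right h6 (by positivity)
            _ = δ / 8 := by field_simp
        rw [e1]
        have h11 := norm_add_le ((1 - δ / d) • v + (δ / d) • (v - u)) ((δ / d - δ / ‖u‖) • u)
        have h12 := norm_add_le ((1 - δ / d) • v) ((δ / d) • (v - u))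
        linarith
      have hηδ : η' / 2 * δ ≤ δ / 32 := by
        have : η' / 2 * δ ≤ (1 / 16) / 2 * δ := mul_le_mul_of_nonneg_right (by linarith) hδ0.le
        linarith
      have h8 : dist z' y ≤ d - δ / 2 := by
        rw [hdist]
        have e1 : S.e y - S.e z' = (v - w) - (S.e z' - S.e z - w) := by rw [hv]; abel
        rw [e1]
        have h9 := norm_sub_le (v - w) (S.e z' - S.e z - w)
        linarith
      have h9 : dist z z' ≤ 2 * δ := by
        rw [hdist]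
        have h10 := norm_add_le (S.e z' - S.e z - w) w
        rw [sub_add_cancel, hwn] at h10
        linarith
      have h10 : δ ≤ 2 * dist z z' := by
        rw [hdist]
        have h11 := norm_sub_le (S.e z' - S.e z) (S.e z' - S.e z - w)
        rw [sub_sub_cancel, hwn] at h11
        linarith
      have h11 := hχ z z' (by linarith) ⟨w, hwV, by
        have h12 : η' / 2 * δ ≤ η' / 2 * (2 * dist z z') :=
          mul_le_mul_of_nonneg_left h10 (by positivity)
        have h13 : η' * dist z z' ≤ η * dist z z' := mul_le_mul_of_nonneg_right hη'2 dist_nonneg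
        linarith⟩
      have h12 : S.URel ρ₀ z' y := by
        have h13 := (hz1.symm).trans hz
        exact h13.mono (by linarith)
      have h13 := ih z' (hself _ _ h12) (by linarith) (by
        push_cast at h2
        linarith)
      have h14 := dist_triangle (χ z) (χ z') (χ y)
      have h15 : Q * dist z z' ≤ Q * (2 * δ) := mul_le_mul_of_nonneg_left h9 hQ
      have h16 : 4 * Q * dist z' y ≤ 4 * Q * (d - δ / 2) :=
        mul_le_mul_of_nonneg_left h8 (by positivity)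
      have e3 : Q * (2 * δ) + 4 * Q * (d - δ / 2) = 4 * Q * d := by ring
      linarith
  obtain ⟨n, hn⟩ := exists_nat_gt (dist x y / (δ / 2))
  have hxy0 : S.URel ρ₀ x y := hxy.mono (by linarith)
  refine main n x (hself _ _ hxy0) hxy.dist_le ?_
  rw [div_lt_iff₀ (by positivity)] at hn
  linarith

end Pool.Agent.W5h13.LS
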