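import Pool.Agent.H66.L.T9f66d723.W5h13.LS.B1
import Pool.Agent.H66.L.T9f66d723.W5h13.LS.A3
import Pool.Agent.H66.L.S8.H789R2.AN.Man

set_option autoImplicit false
set_option linter.unusedSectionVars false

open scoped Manifold ContDiff Topology Bundle
open Set Filter Bundle

namespace Pool.Agent.W5h13.LS

open Pool.Agent.H789R2.AN Pool.Agent.H721R2

variable {E₀ : Type*} [NormedAddCommGroup E₀] [NormedSpace ℝ E₀] [FiniteDimensional ℝ E₀]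
  {M : Type*} [MetricSpace M] [CompactSpace M] [ChartedSpace E₀ M] [IsManifold 𝓘(ℝ, E₀) 1 M]
  {F : Type*} [NormedAddCommGroup F] [NormedSpace ℝ F]

/-- First order control of a `C¹` map. -/
theorem infinitesimal {e : M → F} (hiso : ∀ x y, dist x y = ‖e x - e y‖)
    (he : ContMDiff 𝓘(ℝ, E₀) 𝓘(ℝ, F) 1 e) (hinj : ∀ x, Function.Injective (dm E₀ e x))
    (χ : M → M) (hχ : ContMDiff 𝓘(ℝ, E₀) 𝓘(ℝ, E₀) 1 χ) (V : M → Submodule ℝ E₀) (A : ℝ)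
    (hA : 0 ≤ A)
    (hV : ∀ x, ∀ v ∈ V x, ‖dm E₀ e (χ x) (dg E₀ χ x v)‖ ≤ A * ‖dm E₀ e x v‖) (ε : ℝ) (hε : 0 < ε) :
    ∃ η > 0, ∃ r > 0, ∀ x y, dist x y < r →
      (∃ w ∈ (V x).map (dm E₀ e x).toLinearMap, ‖e y - e x - w‖ ≤ η * dist x y) →
      dist (χ x) (χ y) ≤ (A + ε) * dist x y := by
  obtain ⟨B, hB, hbd⟩ := global_bound e he hinj χ hχ
  set η := ε / (A + 2 * B + 2) with hη
  have hB0 : 0 ≤ B := le_of_lt hB
  have hη0 : 0 < η := by positivity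
  have hηε : η * (A + 2 * B + 1) ≤ ε := by
    have h1 : η * (A + 2 * B + 2) = ε := by rw [hη]; field_simp
    nlinarith
  have hP : ∃ r > 0, ∀ x y, dist x y < r → ∃ v : E₀,
      ‖e y - e x - dm E₀ e x v‖ ≤ η * ‖e y - e x‖ ∧
      ‖e (χ y) - e (χ x) - dm E₀ e (χ x) (dg E₀ χ x v)‖ ≤ η * ‖e y - e x‖ := by
    apply exists_uniform_radius
    intro x₀
    obtain ⟨-, h1⟩ := local_all e he hinj (e ∘ χ) (he.comp hχ) x₀
    obtain ⟨W, hW, r, hr, h2, -, -⟩ := h1 η hη0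
    refine ⟨W, hW, fun x hx y hy => ?_⟩
    obtain ⟨v, h3, h4⟩ := h2 x hx y hy
    rw [dm_comp e he _ hχ] at h4
    exact ⟨v, h3, h4⟩
  obtain ⟨r, hr, hP⟩ := hP
  refine ⟨η, hη0, r, hr, fun x y hxy hw => ?_⟩
  obtain ⟨_, ⟨w, hw, rfl⟩, h1⟩ := hw
  change ‖e y - e x - dm E₀ e x w‖ ≤ η * dist x y at h1
  obtain ⟨v, h2, h3⟩ := hP x y hxy
  have hd : ‖e y - e x‖ = dist x y := by rw [hiso, norm_sub_rev]
  rw [hd] at h2 h3
  set d := dist x y with hdd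
  have hd0 : 0 ≤ d := dist_nonneg
  have h4 : ‖dm E₀ e x (v - w)‖ ≤ 2 * (η * d) := by
    have e1 : dm E₀ e x (v - w) = (e y - e x - dm E₀ e x w) - (e y - e x - dm E₀ e x v) := by
      rw [map_sub]; abel
    rw [e1]
    have := norm_sub_le (e y - e x - dm E₀ e x w) (e y - e x - dm E₀ e x v)
    linarith
  have h5 : ‖dm E₀ e x w‖ ≤ d + η * d := by
    have e1 : dm E₀ e x w = (e y - e x) - (e y - e x - dm E₀ e x w) := by abel
    rw [e1]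
    have := norm_sub_le (e y - e x) (e y - e x - dm E₀ e x w)
    linarith
  have h6 := hbd x (v - w)
  have h7 := hV x w hw
  have h8 : dist (χ x) (χ y) = ‖e (χ y) - e (χ x)‖ := by rw [hiso, norm_sub_rev]
  rw [h8]
  have e2 : e (χ y) - e (χ x) = (e (χ y) - e (χ x) - dm E₀ e (χ x) (dg E₀ χ x v)) +
      dm E₀ e (χ x) (dg E₀ χ x (v - w)) + dm E₀ e (χ x) (dg E₀ χ x w) := by
    rw [map_sub, map_sub]; abel
  rw [e2]
  have h9 := norm_add_le ((e (χ y) - e (χ x) - dm E₀ e (χ x) (dg E₀ χ x v)) +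
      dm E₀ e (χ x) (dg E₀ χ x (v - w))) (dm E₀ e (χ x) (dg E₀ χ x w))
  have h10 := norm_add_le (e (χ y) - e (χ x) - dm E₀ e (χ x) (dg E₀ χ x v))
      (dm E₀ e (χ x) (dg E₀ χ x (v - w)))
  have h11 : B * ‖dm E₀ e x (v - w)‖ ≤ B * (2 * (η * d)) := mul_le_mul_of_nonneg_left h4 hB0
  have h12 : A * ‖dm E₀ e x w‖ ≤ A * (d + η * d) := mul_le_mul_of_nonneg_left h5 hA
  have h13 : η * (A + 2 * B + 1) * d ≤ ε * d := mul_le_mul_of_nonneg_right hηε hd0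
  nlinarith

end Pool.Agent.W5h13.LS
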