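import Pool.Agent.H66.L.T9f66d723.W5h13.LS.B2

set_option autoImplicit false
set_option linter.unusedSectionVars false

open scoped Manifold ContDiff Topology Bundle
open Set Filter Bundle

namespace Pool.Agent.W5h13.LS

open Pool.Agent.H789R2.AN Pool.Agent.H721R2

variable {E₀ : Type*} [NormedAddCommGroup E₀] [NormedSpace ℝ E₀] [FiniteDimensional ℝ E₀]
  {M : Type*} [MetricSpace M] [CompactSpace M] [ChartedSpace E₀ M] [IsManifold 𝓘(ℝ, E₀) 1 M]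
  {F : Type*} [NormedAddCommGroup F] [NormedSpace ℝ F]

theorem leaf_local {e : M → F} (hiso : ∀ x y, dist x y = ‖e x - e y‖)
    (he : ContMDiff 𝓘(ℝ, E₀) 𝓘(ℝ, F) 1 e) (hinj : ∀ x, Function.Injective (dm E₀ e x))
    (S : HypSys M F) (hSe : S.e = e) (V : M → Submodule ℝ E₀)
    (hSV : ∀ x, S.Vu x = (V x).map (dm E₀ e x).toLinearMap) :
    ∃ ρ > 0, ∀ (f₂ : M ≃ₜ M) (Es₂ Eu₂ : M → Submodule ℝ E₀) (C a b Ls Lu : ℝ),
      EAnosov e f₂ Es₂ Eu₂ C a b Ls Lu → ∀ (ψ : M → M), ContMDiff 𝓘(ℝ, E₀) 𝓘(ℝ, E₀) 1 ψ →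
      (∀ x, ∀ v ∈ V x, dg E₀ ψ x v ∈ Eu₂ (ψ x)) → ∀ x y, S.URel ρ x y →
      WS f₂.symm (ψ x) (ψ y) := by
  obtain ⟨ρ, hρ, hch⟩ := chain_lip S
  refine ⟨ρ, hρ, fun f₂ Es₂ Eu₂ C a b Ls Lu h₂ ψ hψ hψV x y hxy => ?_⟩
  obtain ⟨B, hB, hbd⟩ := global_bound e he hinj ψ hψ
  have hC := h₂.C_pos
  have hC0 : 0 < C := by linarith
  have hb := h₂.b_pos
  have hkey : ∀ k : ℕ, dist (f₂.symm^[k] (ψ x)) (f₂.symm^[k] (ψ y)) ≤
      (4 * (C * B + 1) * dist x y) * b ^ k := by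
    intro k
    have hsm := iter_smooth f₂.symm h₂.smooth' k
    have hχ : ContMDiff 𝓘(ℝ, E₀) 𝓘(ℝ, E₀) 1 (f₂.symm^[k] ∘ ψ) := hsm.comp hψ
    have hA0 : 0 ≤ C * b ^ k * B := by positivity
    obtain ⟨η, hη, r, hr, h1⟩ := infinitesimal hiso he hinj (f₂.symm^[k] ∘ ψ) hχ V
      (C * b ^ k * B) hA0 (by
        intro x v hv
        rw [dg_comp ψ _ hψ hsm]
        have h2 := h₂.hU' k (ψ x) _ (hψV x v hv)
        have h3 : C * b ^ k * ‖dm E₀ e (ψ x) (dg E₀ ψ x v)‖ ≤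
            C * b ^ k * (B * ‖dm E₀ e x v‖) :=
          mul_le_mul_of_nonneg_left (hbd x v) (by positivity)
        calc _ ≤ C * b ^ k * ‖dm E₀ e (ψ x) (dg E₀ ψ x v)‖ := h2
          _ ≤ C * b ^ k * (B * ‖dm E₀ e x v‖) := h3
          _ = _ := by ring) (b ^ k) (by positivity)
    have h2 := hch (f₂.symm^[k] ∘ ψ) η r (C * b ^ k * B + b ^ k) hη hr (by positivity) (by
      intro p q hpq hw
      rw [hSV, hSe] at hw
      exact h1 p q hpq hw) x y hxy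
    calc _ ≤ 4 * (C * b ^ k * B + b ^ k) * dist x y := h2
      _ = _ := by ring
  have h1 : Tendsto (fun k : ℕ => (4 * (C * B + 1) * dist x y) * b ^ k) atTop (𝓝 0) := by
    have := (tendsto_pow_atTop_nhds_zero_of_lt_one h₂.b_pos.le h₂.b_lt).const_mul
      (4 * (C * B + 1) * dist x y)
    simpa using this
  exact squeeze_zero (fun _ => dist_nonneg) hkey h1

/-- **`C¹` maps whose derivative maps unstable spaces into unstable spaces map unstable leaves into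
unstable leaves.** -/
theorem leaf_map {e : M → F} (hiso : ∀ x y, dist x y = ‖e x - e y‖)
    (he : ContMDiff 𝓘(ℝ, E₀) 𝓘(ℝ, F) 1 e) (hinj : ∀ x, Function.Injective (dm E₀ e x))
    (S : HypSys M F) (hSe : S.e = e) {f₁ : M ≃ₜ M} {Es₁ Eu₁ : M → Submodule ℝ E₀}
    {C₁ a₁ b₁ Ls₁ Lu₁ : ℝ} (h₁ : EAnosov e f₁ Es₁ Eu₁ C₁ a₁ b₁ Ls₁ Lu₁) {N : ℕ} (hN : 1 ≤ N)
    (hSg : S.g = iterHomeo f₁ N)
    (hSV : ∀ x, S.Vu x = (Eu₁ x).map (dm E₀ e x).toLinearMap)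
    {f₂ : M ≃ₜ M} {Es₂ Eu₂ : M → Submodule ℝ E₀} {C a b Ls Lu : ℝ}
    (h₂ : EAnosov e f₂ Es₂ Eu₂ C a b Ls Lu) (ψ : M → M) (hψ : ContMDiff 𝓘(ℝ, E₀) 𝓘(ℝ, E₀) 1 ψ)
    (hψV : ∀ x, ∀ v ∈ Eu₁ x, dg E₀ ψ x v ∈ Eu₂ (ψ x)) {x y : M} (hxy : WS f₁.symm x y) :
    WS f₂.symm (ψ x) (ψ y) := by
  obtain ⟨ρ, hρ, hloc⟩ := leaf_local hiso he hinj S hSe Eu₁ hSV
  have h1 : WS S.g.symm x y := by
    rw [hSg, iterHomeo_symm, WS_iter_iff f₁.symm hN]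
    exact hxy
  obtain ⟨m, hm⟩ := h1.eventually_lt hρ
  have h2 : S.URel ρ (S.g.symm^[m] x) (S.g.symm^[m] y) := by
    intro k
    rw [← Function.iterate_add_apply, ← Function.iterate_add_apply]
    exact (hm _ (by omega)).le
  have hsm := iter_smooth f₁ h₁.smooth (N * m)
  have h3 := hloc f₂ Es₂ Eu₂ C a b Ls Lu h₂ (ψ ∘ f₁^[N * m]) (hψ.comp hsm) (by
    intro z v hv
    rw [dg_comp _ ψ hsm hψ]
    exact hψV _ _ (h₁.mapU _ z v hv)) _ _ h2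
  have h4 : ∀ z, f₁^[N * m] (S.g.symm^[m] z) = z := by
    intro z
    rw [← iterHomeo_iter, ← hSg, iterR]
  rw [Function.comp_apply, Function.comp_apply, h4, h4] at h3
  exact h3

end Pool.Agent.W5h13.LS
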