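import Pool.Agent.H66.L.T9f66d723.W5h13.LS.B3

set_option autoImplicit false
set_option linter.unusedSectionVars false

open scoped Manifold ContDiff Topology Bundle
open Set Filter Bundle

namespace Pool.Agent.W5h13.LS

open Pool.Agent.H789R2.AN Pool.Agent.H721R2

section met

variable {X : Type*} [MetricSpace X] [CompactSpace X]

theorem ws_symm_iter (f : X ≃ₜ X) {N : ℕ} (hN : 1 ≤ N) (x y : X) :
    WS (iterHomeo f N).symm x y ↔ WS f.symm x y := by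
  rw [iterHomeo_symm, WS_iter_iff f.symm hN]

theorem sat_iter (f : X ≃ₜ X) {N : ℕ} (hN : 1 ≤ N) (A : Set X) :
    Sat (iterHomeo f N) A ↔ Sat f A := by
  unfold Sat
  simp only [ws_symm_iter f hN]

theorem sat_symm_iter (f : X ≃ₜ X) {N : ℕ} (hN : 1 ≤ N) (A : Set X) :
    Sat (iterHomeo f N).symm A ↔ Sat f.symm A := by
  rw [iterHomeo_symm, sat_iter f.symm hN]

end met

variable {E₀ : Type*} [NormedAddCommGroup E₀] [NormedSpace ℝ E₀] [FiniteDimensional ℝ E₀]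
  {M : Type*} [MetricSpace M] [CompactSpace M] [ChartedSpace E₀ M] [IsManifold 𝓘(ℝ, E₀) 1 M]
  {F : Type*} [NormedAddCommGroup F] [NormedSpace ℝ F]

theorem exists_sys_ev {e : M → F} (hiso : ∀ x y, dist x y = ‖e x - e y‖)
    (he : ContMDiff 𝓘(ℝ, E₀) 𝓘(ℝ, F) 1 e) (hinj : ∀ x, Function.Injective (dm E₀ e x))
    {f : M ≃ₜ M} {Es Eu : M → Submodule ℝ E₀} {C a b Ls Lu : ℝ}
    (hE : EAnosov e f Es Eu C a b Ls Lu) :
    ∀ᶠ n in atTop, ∃ S : HypSys M F, S.g = iterHomeo f n ∧ S.e = e ∧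
      (∀ x, S.Vs x = (Es x).map (dm E₀ e x).toLinearMap) ∧
      (∀ x, S.Vu x = (Eu x).map (dm E₀ e x).toLinearMap) := by
  obtain ⟨K, hK, hang⟩ := hE.angle he hinj
  have t1 : Tendsto (fun n : ℕ => K * (C * a ^ n)) atTop (𝓝 0) := by
    have := ((tendsto_pow_atTop_nhds_zero_of_lt_one hE.a_pos.le hE.a_lt).const_mul C).const_mul K
    simpa using this
  have t2 : Tendsto (fun n : ℕ => K * (C * b ^ n)) atTop (𝓝 0) := by
    have := ((tendsto_pow_atTop_nhds_zero_of_lt_one hE.b_pos.le hE.b_lt).const_mul C).const_mul K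
    simpa using this
  filter_upwards [(tendsto_order.mp t1).2 (1 / 16) (by norm_num),
    (tendsto_order.mp t2).2 (1 / 16) (by norm_num)] with n h1 h2
  exact exists_hypSys' hiso he hinj hE K hK hang n h1.le h2.le

/-- A good hyperbolic system for an Anosov diffeomorphism: a power of `f` which fixes every closed
set saturated by unstable leaves and every closed set saturated by stable leaves. -/
structure Good (e : M → F) (f : M ≃ₜ M) (Es Eu : M → Submodule ℝ E₀) (N : ℕ) (S : HypSys M F)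
    (c : ℝ) : Prop where
  one_le : 1 ≤ N
  g : S.g = iterHomeo f N
  emb : S.e = e
  Vs : ∀ x, S.Vs x = (Es x).map (dm E₀ e x).toLinearMap
  Vu : ∀ x, S.Vu x = (Eu x).map (dm E₀ e x).toLinearMap
  lp : LP S.g c
  fixU : ∀ A, IsClosed A → Sat f A → ∀ x, S.g x ∈ A ↔ x ∈ A
  fixS : ∀ A, IsClosed A → Sat f.symm A → ∀ x, S.g x ∈ A ↔ x ∈ A

theorem exists_good {e : M → F} (hiso : ∀ x y, dist x y = ‖e x - e y‖)
    (he : ContMDiff 𝓘(ℝ, E₀) 𝓘(ℝ, F) 1 e) (hinj : ∀ x, Function.Injective (dm E₀ e x))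
    {f : M ≃ₜ M} {Es Eu : M → Submodule ℝ E₀} {C a b Ls Lu : ℝ}
    (hE : EAnosov e f Es Eu C a b Ls Lu) :
    ∃ (N : ℕ) (S : HypSys M F) (c : ℝ), Good e f Es Eu N S c := by
  have hev := exists_sys_ev hiso he hinj hE
  obtain ⟨n₀, hn₀⟩ := eventually_atTop.mp hev
  obtain ⟨S₀, hS₀, -, -, -⟩ := hn₀ (n₀ + 1) (by omega)
  obtain ⟨c₀, hc₀⟩ := exists_LP S₀
  have h1 : 1 ≤ n₀ + 1 := by omega
  have hfu : ∀ x y, WS S₀.g.symm x y → WS S₀.g.symm (f x) (f y) := by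
    intro x y hxy
    rw [hS₀, ws_symm_iter f h1] at hxy ⊢
    exact hxy.map (φ := f) (fun x => by simp)
  obtain ⟨p, hp, hpf⟩ := exists_power hc₀ (φ := f) hfu
  have hfs : ∀ x y, WS S₀.g.symm.symm x y → WS S₀.g.symm.symm (f x) (f y) := by
    intro x y hxy
    have h2 : WS S₀.g x y := hxy
    show WS S₀.g (f x) (f y)
    rw [hS₀, WS_iter_iff f h1] at h2 ⊢
    exact h2.map (φ := f) (fun x => rfl)
  obtain ⟨q, hq, hqf⟩ := exists_power hc₀.symm (φ := f) hfs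
  have hN1 : 1 ≤ p * q * (n₀ + 1) := by
    have : 0 < p * q * (n₀ + 1) := by positivity
    omega
  have hN2 : n₀ ≤ p * q * (n₀ + 1) := by
    have : 1 ≤ p * q := by
      have : 0 < p * q := by positivity
      omega
    nlinarith
  obtain ⟨S, hSg, hSe, hSs, hSu⟩ := hn₀ (p * q * (n₀ + 1)) hN2
  obtain ⟨c, hc⟩ := exists_LP S
  refine ⟨p * q * (n₀ + 1), S, c, ⟨hN1, hSg, hSe, hSs, hSu, hc, ?_, ?_⟩⟩
  · intro A hA hs x
    have h2 : ∀ x, f^[p] x ∈ A ↔ x ∈ A := by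
      refine hpf A hA ?_
      rw [hS₀, sat_iter f h1]
      exact hs
    rw [hSg]
    show f^[p * q * (n₀ + 1)] x ∈ A ↔ x ∈ A
    have h3 : f^[p * q * (n₀ + 1)] x = (iterHomeo f p)^[q * (n₀ + 1)] x := by
      rw [iterHomeo_iter, Nat.mul_assoc]
    rw [h3]
    exact inv_iter (g := iterHomeo f p) h2 _ x
  · intro A hA hs x
    have h2 : ∀ x, f^[q] x ∈ A ↔ x ∈ A := by
      refine hqf A hA ?_
      rw [hS₀, sat_symm_iter f h1]
      exact hs
    rw [hSg]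
    show f^[p * q * (n₀ + 1)] x ∈ A ↔ x ∈ A
    have h3 : f^[p * q * (n₀ + 1)] x = (iterHomeo f q)^[p * (n₀ + 1)] x := by
      rw [iterHomeo_iter]
      congr 1
      ring
    rw [h3]
    exact inv_iter (g := iterHomeo f q) h2 _ x

theorem Good.lp' {e : M → F} {f : M ≃ₜ M} {Es Eu : M → Submodule ℝ E₀} {N : ℕ} {S : HypSys M F}
    {c : ℝ} (h : Good e f Es Eu N S c) : LP (iterHomeo f N) c := h.g ▸ h.lp

theorem Good.ws_u {e : M → F} {f : M ≃ₜ M} {Es Eu : M → Submodule ℝ E₀} {N : ℕ} {S : HypSys M F}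
    {c : ℝ} (h : Good e f Es Eu N S c) (x y : M) : WS S.g.symm x y ↔ WS f.symm x y := by
  rw [h.g, ws_symm_iter f h.one_le]

theorem Good.ws_s {e : M → F} {f : M ≃ₜ M} {Es Eu : M → Submodule ℝ E₀} {N : ℕ} {S : HypSys M F}
    {c : ℝ} (h : Good e f Es Eu N S c) (x y : M) : WS S.g x y ↔ WS f x y := by
  rw [h.g, WS_iter_iff f h.one_le]

theorem Good.sat_u {e : M → F} {f : M ≃ₜ M} {Es Eu : M → Submodule ℝ E₀} {N : ℕ} {S : HypSys M F}
    {c : ℝ} (h : Good e f Es Eu N S c) (A : Set M) : Sat S.g A ↔ Sat f A := by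
  rw [h.g, sat_iter f h.one_le]

theorem Good.sat_s {e : M → F} {f : M ≃ₜ M} {Es Eu : M → Submodule ℝ E₀} {N : ℕ} {S : HypSys M F}
    {c : ℝ} (h : Good e f Es Eu N S c) (A : Set M) : Sat S.g.symm A ↔ Sat f.symm A := by
  rw [h.g, sat_symm_iter f h.one_le]

theorem Good.att {e : M → F} {f : M ≃ₜ M} {Es Eu : M → Submodule ℝ E₀} {N : ℕ} {S : HypSys M F}
    {c : ℝ} (h : Good e f Es Eu N S c) {A : Set M} (hA : IsClosed A) (hne : A.Nonempty)
    (hs : Sat f A) : IsAtt S.g A :=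
  ⟨hA, hne, h.fixU A hA hs, (h.sat_u A).mpr hs⟩

end Pool.Agent.W5h13.LS
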