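import Pool.Agent.H66.L.S8.TH289.Def

set_option autoImplicit false

open Filter Topology Set

namespace Pool.Agent.W5h13.LS

open Pool.Agent.TH289

/-- The leaf of the point `x` in the stable foliation of `f`: the set of the points which are
forward asymptotic to `x`.  (`Leaf f.symm x` is the unstable leaf of `x`.) -/
def Leaf {M : Type*} [TopologicalSpace M] (f : M → M) (x : M) : Set M := {y | Asym f x y}

/-- `A` is closed and is a union of stable leaves of `f`. -/
def ClosedLeafUnion {M : Type*} [TopologicalSpace M] (f : M → M) (A : Set M) : Prop :=
  IsClosed A ∧ ∀ x ∈ A, Leaf f x ⊆ A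

/-- The closure of the stable leaf of `x` is a minimal set of the stable foliation of `f`: every
leaf that meets it is dense in it. -/
def MinLeaf {M : Type*} [TopologicalSpace M] (f : M → M) (x : M) : Prop :=
  ∀ y ∈ closure (Leaf f x), x ∈ closure (Leaf f y)

/-- The space of leaves of the stable foliation of `f`, with the quotient topology: the points of
`M`, two of them being identified if they are forward asymptotic.  (`LeafSpace f.symm` is the space
of leaves of the unstable foliation.) -/
abbrev LeafSpace {M : Type*} [TopologicalSpace M] (f : M → M) : Type _ := Quot (Asym f)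

/-- `γ` is continuous, maps each stable leaf of `f` into a stable leaf of `g`, and its image meets
every stable leaf of `g`. -/
structure LeafMap {M : Type*} [TopologicalSpace M] (f g γ : M → M) : Prop where
  continuous : Continuous γ
  map : ∀ x y, Asym f x y → Asym g (γ x) (γ y)
  meets : ∀ y, ∃ x, Asym g y (γ x)

/-- The homeomorphism `φ` permutes the stable leaves of `f`, permutes the unstable leaves of `f`, and
contracts the unstable leaves of `f`: points of the same unstable leaf of `f` are forward asymptotic
under `φ`. -/
structure Contracts {M : Type*} [TopologicalSpace M] (f φ : M ≃ₜ M) : Prop where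
  stable : ∀ x y, Asym f (φ x) (φ y) ↔ Asym f x y
  unstable : ∀ x y, Asym f.symm (φ x) (φ y) ↔ Asym f.symm x y
  contr : ∀ x y, Asym f.symm x y → Asym φ x y

end Pool.Agent.W5h13.LS
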