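import Pool.Agent.H66.L.T9f66d723.W5h13.LS.C3

set_option autoImplicit false
set_option linter.unusedSectionVars false

open scoped Manifold ContDiff Topology Bundle
open Set Filter Bundle

namespace Pool.Agent.W5h13.LS

open Pool.Agent.H789R2.AN Pool.Agent.H721R2 Pool.Agent.TH289

section met

variable {E₀ : Type*} [NormedAddCommGroup E₀] [NormedSpace ℝ E₀] [FiniteDimensional ℝ E₀]
  {M : Type*} [MetricSpace M] [CompactSpace M] [ChartedSpace E₀ M] [IsManifold 𝓘(ℝ, E₀) 1 M]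
  {F : Type*} [NormedAddCommGroup F] [NormedSpace ℝ F]

/-- Closed sets saturated by unstable leaves are saturated by the stable sets of the homeomorphisms
which permute the stable and the unstable leaves and contract the unstable leaves. -/
theorem Good.sat_contract {e : M → F} {f : M ≃ₜ M} {Es Eu : M → Submodule ℝ E₀} {N : ℕ}
    {S : HypSys M F} {c : ℝ} (h : Good e f Es Eu N S c) {φ : M ≃ₜ M}
    (hs : ∀ x y, WS f (φ x) (φ y) → WS f x y)
    (hu : ∀ x y, WS f.symm x y → WS f.symm (φ x) (φ y))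
    (hc : ∀ x y, WS f.symm x y → WS φ x y) {A : Set M} (hA : IsClosed A) (hsat : Sat f A) :
    ∀ x ∈ A, ∀ y, WS φ x y → y ∈ A := by
  rcases A.eq_empty_or_nonempty with rfl | hne
  · intro x hx; exact absurd hx (notMem_empty x)
  have hatt := h.att hA hne hsat
  obtain ⟨p, hp, hpf⟩ := exists_power h.lp (φ := φ) (by
    intro x y hxy
    rw [h.ws_u] at hxy ⊢
    exact hu x y hxy)
  have hAp := hpf A hA ((h.sat_u A).mpr hsat)
  have hAp' : ∀ x, (iterHomeo φ p) x ∈ A ↔ x ∈ A := hAp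
  have key := theoremA' (φ := iterHomeo φ p) h.lp (by
    intro x y hxy
    rw [h.ws_s] at hxy ⊢
    have h2 : WS f (φ^[p] x) (φ^[p] y) := hxy
    exact ws_iter_back hs p h2) (by
    intro x y hxy
    rw [h.ws_u] at hxy
    rw [WS_iter_iff φ hp]
    exact hc x y hxy) hatt hAp'
  intro x hx y hxy
  exact key x hx y ((WS_iter_iff φ hp x y).mpr hxy)

end met

section chain

variable {E₀ : Type*} [NormedAddCommGroup E₀] [NormedSpace ℝ E₀] [FiniteDimensional ℝ E₀]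
  {M : Type*} [MetricSpace M] [CompactSpace M] [ConnectedSpace M] [ChartedSpace E₀ M]
  [IsManifold 𝓘(ℝ, E₀) 1 M]
  {F : Type*} [NormedAddCommGroup F] [InnerProductSpace ℝ F]

theorem chain_met {ι : Type*} {e : M → F} (hiso : ∀ x y, dist x y = ‖e x - e y‖)
    (he : ContMDiff 𝓘(ℝ, E₀) 𝓘(ℝ, F) 1 e) (hinj : ∀ x, Function.Injective (dm E₀ e x))
    (f : ι → M ≃ₜ M) (Es Eu : ι → M → Submodule ℝ E₀) (C a b Ls Lu : ι → ℝ)
    (hE : ∀ i, EAnosov e (f i) (Es i) (Eu i) (C i) (a i) (b i) (Ls i) (Lu i))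
    (hconn : ∀ i j, Relation.EqvGen (fun i j => (∀ x, Eu i x ≤ Eu j x) ∧
      (∀ x, ∀ v ∈ Es i x, dg E₀ (f j) x v ∈ Es i (f j x)) ∧
      (∀ x, ∀ v ∈ Eu i x, dg E₀ (f j) x v ∈ Eu i (f j x))) i j)
    (hspan : ∀ x, ⨆ i, Eu i x = ⊤) (i : ι) : TopTransitive (f i : M → M) := by
  have hgood := fun i => exists_good hiso he hinj (hE i)
  choose N S c hG using hgood
  have heq : ∀ A, IsClosed A → ∀ i j, (Sat (f i) A ↔ Sat (f j) A) := by
    intro A hA i j
    have h := hconn i j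
    induction h with
    | rel i j h =>
      obtain ⟨h1, h2, h3⟩ := h
      exact edge hiso he hinj (hG i) (hE i) (hE j) h1 h2 h3 hA
    | refl i => exact Iff.rfl
    | symm i j _ ih => exact ih.symm
    | trans i j k _ _ ih1 ih2 => exact ih1.trans ih2
  refine (hG i).trans_of_dense fun A hA hne hs => ?_
  refine eq_univ_of_span S e (fun j x => by rw [(hG j).emb]) i (fun x => ?_) hA hne (fun j => ?_)
  · have h1 : (⨆ j, (S j).Vu x) = Submodule.map (dm E₀ e x).toLinearMap (⊤ : Submodule ℝ E₀) :=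
      (iSup_congr fun j => (hG j).Vu x).trans
        (map_span_top (dm E₀ e x).toLinearMap (fun j => Eu j x) (hspan x))
    rw [h1, (hG i).Vs, (hG i).Vu]
    exact sup_le (Submodule.map_mono le_top) (Submodule.map_mono le_top)
  · intro x hx y hxy
    exact (heq A hA i j).mp hs x hx y (((hG j).ws_u x y).mp hxy)

end chain

section man

variable {E : Type*} [NormedAddCommGroup E] [NormedSpace ℝ E] [FiniteDimensional ℝ E]
  {M : Type*} [TopologicalSpace M] [T2Space M] [CompactSpace M] [ConnectedSpace M]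
  [ChartedSpace E M] [IsManifold 𝓘(ℝ, E) ∞ M]

theorem man_leafSpace (f : Diffeomorph 𝓘(ℝ, E) 𝓘(ℝ, E) M M 1)
    (Es Eu : ∀ x : M, Submodule ℝ (TangentSpace 𝓘(ℝ, E) x)) (hA : IsAnosov f Es Eu) :
    {U : Set (LeafSpace f.symm) | IsOpen U}.Finite ∧
    [TopTransitive f,
      ∀ x, Dense (Leaf f.symm x),
      (interior {x | MinLeaf f.symm x}).Nonempty,
      ∃ x, MinLeaf f.symm x ∧ MinLeaf f x,
      ∀ q r : LeafSpace f.symm, ∃ φ : LeafSpace f.symm ≃ₜ LeafSpace f.symm, φ q = r,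
      ∃ Γ : Set (LeafSpace f.symm → LeafSpace f.symm),
        (∀ ψ ∈ Γ, Continuous ψ ∧ Function.Surjective ψ) ∧
        ∀ S : Set (LeafSpace f.symm), IsClosed S → S.Nonempty → (∀ ψ ∈ Γ, MapsTo ψ S S) →
          (interior S).Nonempty].TFAE ∧
    ∀ φ : M ≃ₜ M, (∀ x y, Asym f (φ x) (φ y) ↔ Asym f x y) →
      (∀ x y, Asym f.symm (φ x) (φ y) ↔ Asym f.symm x y) →
      (∀ x y, Asym f.symm x y → Asym φ x y) →
      ∀ A : Set M, IsClosed A → (∀ x ∈ A, Leaf f.symm x ⊆ A) → ∀ x ∈ A, Leaf φ x ⊆ A := by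
  obtain ⟨m, e, he, hemb, hinj⟩ := exists_embedding_euclidean_of_compact (I := 𝓘(ℝ, E)) (M := M)
  let _ : MetricSpace M := hemb.isEmbedding.comapMetricSpace e
  have hiso : ∀ x y : M, dist x y = ‖e x - e y‖ := fun x y => dist_eq_norm (e x) (e y)
  have he1 : ContMDiff 𝓘(ℝ, E) (𝓡 m) 1 e := he.of_le (by simp)
  obtain ⟨C, a, b, Ls, Lu, hE⟩ := eanosov_of_isAnosov e he1 hinj f Es Eu hA
  obtain ⟨N, S, c, hG⟩ := exists_good hiso he1 hinj hE
  refine ⟨hG.finite_open, hG.tfae, fun φ h1 h2 h3 A hA hsat x hx y hxy => ?_⟩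
  have e1 : ∀ x y : M, Asym f x y ↔ WS f.toHomeomorph x y := asym_iff f.toHomeomorph
  have e2 : ∀ x y : M, Asym f.symm x y ↔ WS f.toHomeomorph.symm x y :=
    asym_iff f.toHomeomorph.symm
  have e3 : ∀ x y : M, Asym φ x y ↔ WS φ x y := asym_iff φ
  refine hG.sat_contract (φ := φ) (fun x y h => ?_) (fun x y h => ?_) (fun x y h => ?_) hA
    (fun x hx y hxy => hsat x hx ((e2 x y).mpr hxy)) x hx y ((e3 x y).mp hxy)
  · exact (e1 x y).mp ((h1 x y).mp ((e1 _ _).mpr h))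
  · exact (e2 _ _).mp ((h2 x y).mpr ((e2 x y).mpr h))
  · exact (e3 x y).mp (h3 x y ((e2 x y).mpr h))

theorem man_chain {ι : Type*} (f : ι → Diffeomorph 𝓘(ℝ, E) 𝓘(ℝ, E) M M 1)
    (Es Eu : ι → ∀ x : M, Submodule ℝ (TangentSpace 𝓘(ℝ, E) x))
    (hA : ∀ i, IsAnosov (f i) (Es i) (Eu i))
    (hconn : ∀ i j, Relation.EqvGen (fun i j => (∀ x, Eu i x ≤ Eu j x) ∧
      InvariantField (f j) (Es i) ∧ InvariantField (f j) (Eu i)) i j)
    (hspan : ∀ x, ⨆ i, Eu i x = ⊤) (i : ι) : TopTransitive (f i) := by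
  obtain ⟨m, e, he, hemb, hinj⟩ := exists_embedding_euclidean_of_compact (I := 𝓘(ℝ, E)) (M := M)
  let _ : MetricSpace M := hemb.isEmbedding.comapMetricSpace e
  have hiso : ∀ x y : M, dist x y = ‖e x - e y‖ := fun x y => dist_eq_norm (e x) (e y)
  have he1 : ContMDiff 𝓘(ℝ, E) (𝓡 m) 1 e := he.of_le (by simp)
  have hE := fun i => eanosov_of_isAnosov e he1 hinj (f i) (Es i) (Eu i) (hA i)
  choose C a b Ls Lu hE using hE
  refine chain_met hiso he1 hinj (fun i => (f i).toHomeomorph) (fun i => Es i) (fun i => Eu i)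
    C a b Ls Lu hE ?_ hspan i
  intro i j
  refine Relation.EqvGen.mono ?_ i j (hconn i j)
  rintro i j ⟨h1, h2, h3⟩
  have key : ∀ V : ∀ x : M, Submodule ℝ (TangentSpace 𝓘(ℝ, E) x), InvariantField (f j) V →
      ∀ x, ∀ v ∈ V x, dg E (f j).toHomeomorph x v ∈ V ((f j).toHomeomorph x) := by
    intro V hV x v hv
    have h4 := hV x
    have h5 : mfderiv 𝓘(ℝ, E) 𝓘(ℝ, E) (f j) x v ∈ V (f j x) := by
      rw [← h4]
      exact ⟨v, hv, rfl⟩
    exact h5
  exact ⟨h1, key _ h2, key _ h3⟩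

end man

end Pool.Agent.W5h13.LS
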