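import Pool.Agent.H66.L.S8.H789R2.AN.Span

set_option autoImplicit false

open Filter Topology Set Metric

namespace Pool.Agent.W5h13.LS

open Pool.Agent.H789R2.AN Pool.Agent.H721R2

open scoped InnerProductSpace

variable {X E : Type*} [MetricSpace X] [NormedAddCommGroup E] [InnerProductSpace ℝ E]
  [FiniteDimensional ℝ E]

/-- **Local spanning**: a closed set saturated by the unstable sets of several hyperbolic systems
contains a neighbourhood of each of its points at which the unstable spaces span. -/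
theorem mem_interior_of_span [CompactSpace X] {ι : Type*} (S : ι → HypSys X E)
    (e : X → E) (he : ∀ i x, (S i).e x = e x) (i₀ : ι) {T : Set X} (hTc : IsClosed T)
    (hT : ∀ i, ∀ x ∈ T, ∀ y, WS (S i).g.symm x y → y ∈ T) {x₀ : X} (hx₀ : x₀ ∈ T)
    (hspan : (S i₀).Vs x₀ ⊔ (S i₀).Vu x₀ ≤ ⨆ i, (S i).Vu x₀) : x₀ ∈ interior T := by
  have hdist : ∀ p q : X, dist p q = ‖e q - e p‖ := fun p q => by
    rw [dist_comm, (S i₀).isom, he, he]
  by_contra hcon
  rw [mem_interior_iff_mem_nhds, Metric.mem_nhds_iff] at hcon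
  push Not at hcon
  -- a sequence of points outside T
  have hseq : ∀ n : ℕ, ∃ y, dist y x₀ < 1 / ((n : ℝ) + 1) ∧ y ∉ T := by
    intro n
    have h1 := hcon (1 / ((n : ℝ) + 1)) (by positivity)
    rw [not_subset] at h1
    obtain ⟨y, hy, hyT⟩ := h1
    exact ⟨y, hy, hyT⟩
  choose y hy hyT using hseq
  have hnear : ∀ n, ∃ x ∈ T, ∀ z ∈ T, dist (y n) x ≤ dist (y n) z := by
    intro n
    obtain ⟨x, hx, hmin⟩ := hTc.isCompact.exists_infDist_eq_dist ⟨x₀, hx₀⟩ (y n)
    exact ⟨x, hx, fun z hz => by rw [← hmin]; exact infDist_le_dist_of_mem hz⟩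
  choose x hxT hmin using hnear
  have hyx : ∀ n, dist (y n) (x n) < 1 / ((n : ℝ) + 1) := fun n =>
    (hmin n x₀ hx₀).trans_lt (hy n)
  have hxx : ∀ n, dist (x n) x₀ < 2 * (1 / ((n : ℝ) + 1)) := by
    intro n
    have h1 := dist_triangle (x n) (y n) x₀
    rw [dist_comm (x n) (y n)] at h1
    linarith [hyx n, hy n]
  have hlim0 : Tendsto (fun n : ℕ => 1 / ((n : ℝ) + 1)) atTop (𝓝 0) :=
    tendsto_one_div_add_atTop_nhds_zero_nat
  set ν : ℕ → E := fun n => e (y n) - e (x n) with hν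
  have hνpos : ∀ n, 0 < ‖ν n‖ := by
    intro n
    rw [norm_pos_iff]
    intro h0
    have h1 : dist (x n) (y n) = 0 := by rw [hdist]; rw [hν] at h0; simp only at h0; rw [h0, norm_zero]
    have h2 : x n = y n := dist_eq_zero.mp h1
    exact hyT n (h2 ▸ hxT n)
  have hνmin : ∀ n, ∀ z ∈ T, ‖ν n‖ ≤ ‖ν n - (e z - e (x n))‖ := by
    intro n z hz
    have h1 := hmin n z hz
    rw [dist_comm (y n) (x n), hdist (x n) (y n), dist_comm (y n) z, hdist z (y n)] at h1
    have e1 : ν n - (e z - e (x n)) = e (y n) - e z := by rw [hν]; simp only; abel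
    rw [e1]
    exact h1
  have horth : ∀ n i, ∀ w ∈ (S i).Vu (x n), ⟪ν n, w⟫_ℝ = 0 := by
    intro n i w hw
    have hm : ∀ z ∈ T, ‖ν n‖ ≤ ‖ν n - ((S i).e z - (S i).e (x n))‖ := fun z hz => by
      rw [he, he]; exact hνmin n z hz
    have h1 := inner_le (S i) (hT i) (hxT n) (ν n) hm hw
    have h2 := inner_le (S i) (hT i) (hxT n) (ν n) hm (Submodule.neg_mem _ hw)
    rw [inner_neg_right] at h2
    linarith
  -- unit vectors and their limit
  set m : ℕ → E := fun n => (‖ν n‖)⁻¹ • ν n with hm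
  have hmn : ∀ n, ‖m n‖ = 1 := by
    intro n
    rw [hm]
    simp only
    rw [norm_smul, norm_inv, norm_norm, inv_mul_cancel₀ (hνpos n).ne']
  obtain ⟨l, -, φ, hφ, hl⟩ := (isCompact_closedBall (0 : E) 1).tendsto_subseq
    (x := m) (fun n => by rw [mem_closedBall_zero_iff, hmn])
  have hln : ‖l‖ = 1 := by
    have h1 := (continuous_norm.tendsto l).comp hl
    refine tendsto_nhds_unique h1 ?_
    have : (norm ∘ (m ∘ φ)) = fun _ => (1 : ℝ) := by
      funext n; exact hmn _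
    rw [this]
    exact tendsto_const_nhds
  have hφlim : Tendsto (fun n : ℕ => 1 / ((φ n : ℝ) + 1)) atTop (𝓝 0) :=
    hlim0.comp hφ.tendsto_atTop
  -- the limit is orthogonal to all unstable spaces
  have hlorth : ∀ i, ∀ w ∈ (S i).Vu x₀, ⟪l, w⟫_ℝ = 0 := by
    intro i w hw
    have h1 : Tendsto (fun n => ⟪m (φ n), w⟫_ℝ) atTop (𝓝 ⟪l, w⟫_ℝ) :=
      hl.inner tendsto_const_nhds
    have h2 : Tendsto (fun n => ⟪m (φ n), w⟫_ℝ) atTop (𝓝 0) := by
      rw [Metric.tendsto_atTop]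
      intro ε hε
      obtain ⟨r, hr, hA3⟩ := (S i).A3' (ε / (2 * (‖w‖ + 1))) (by positivity)
      obtain ⟨n₀, hn₀⟩ := eventually_atTop.mp ((tendsto_order.mp hφlim).2 (r / 2) (by positivity))
      refine ⟨n₀, fun n hn => ?_⟩
      have h3 : dist x₀ (x (φ n)) < r := by
        rw [dist_comm]
        have := hxx (φ n)
        have := hn₀ n hn
        linarith
      obtain ⟨w', hw', h4⟩ := hA3 x₀ (x (φ n)) h3 w hw
      have h5 : ⟪m (φ n), w'⟫_ℝ = 0 := by
        show ⟪(‖ν (φ n)‖)⁻¹ • ν (φ n), w'⟫_ℝ = 0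
        rw [real_inner_smul_left, horth (φ n) i w' hw', mul_zero]
      have h6 : ⟪m (φ n), w⟫_ℝ = ⟪m (φ n), w - w'⟫_ℝ := by
        rw [inner_sub_right, h5, sub_zero]
      rw [dist_zero_right, h6, Real.norm_eq_abs]
      have h7 := abs_real_inner_le_norm (m (φ n)) (w - w')
      rw [hmn, one_mul] at h7
      have h8 : ε / (2 * (‖w‖ + 1)) * ‖w‖ < ε := by
        rw [div_mul_eq_mul_div, div_lt_iff₀ (by positivity)]
        have := norm_nonneg w
        nlinarith
      linarith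
    exact tendsto_nhds_unique h1 h2
  -- the limit is tangent
  set V := (S i₀).Vs x₀ ⊔ (S i₀).Vu x₀ with hV
  have hVc : IsClosed (V : Set E) := V.closed_of_finiteDimensional
  have hK := (S i₀).one_le_K
  have hK0 : 0 < (S i₀).K := by linarith
  have hlV : l ∈ V := by
    rw [← SetLike.mem_coe, ← hVc.closure_eq, Metric.mem_closure_iff]
    intro ε hε
    set η := min (1 / 2) (ε / (2 * (1 + 6 * (S i₀).K))) with hη
    have hη0 : 0 < η := lt_min (by norm_num) (by positivity)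
    have hη1 : η ≤ 1 / 2 := min_le_left _ _
    have hη2 : (1 + 6 * (S i₀).K) * η ≤ ε / 2 := by
      have h1 : η ≤ ε / (2 * (1 + 6 * (S i₀).K)) := min_le_right _ _
      rw [le_div_iff₀ (by positivity)] at h1
      linarith
    obtain ⟨r₁, hr₁, hA1⟩ := (S i₀).A1 η hη0
    obtain ⟨r₂, hr₂, hA3⟩ := (S i₀).A3 η hη0
    obtain ⟨r₃, hr₃, hA3'⟩ := (S i₀).A3' η hη0
    have hev : ∀ᶠ n in atTop, 2 * (1 / ((φ n : ℝ) + 1)) < min r₁ (min r₂ r₃) := by
      have h1 := hφlim.const_mul 2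
      rw [mul_zero] at h1
      exact (tendsto_order.mp h1).2 _ (lt_min hr₁ (lt_min hr₂ hr₃))
    have hev2 : ∀ᶠ n in atTop, dist (m (φ n)) l < ε / 2 :=
      (tendsto_order.mp (tendsto_iff_dist_tendsto_zero.mp hl)).2 _ (half_pos hε)
    obtain ⟨n, hn1, hn2⟩ := (hev.and hev2).exists
    have hr1 := hn1.trans_le (min_le_left _ _)
    have hr2 := hn1.trans_le ((min_le_right _ _).trans (min_le_left _ _))
    have hr3 := hn1.trans_le ((min_le_right _ _).trans (min_le_right _ _))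
    have hp : 0 < 1 / ((φ n : ℝ) + 1) := by positivity
    obtain ⟨s, hs, u, hu, h1, -⟩ := hA1 (x (φ n)) (y (φ n)) (by
      rw [dist_comm]
      linarith [hyx (φ n)])
    rw [he, he, hdist] at h1
    have h1' : ‖ν (φ n) - (s + u)‖ ≤ η * ‖ν (φ n)‖ := h1
    obtain ⟨s', hs', h2⟩ := hA3 (x (φ n)) x₀ (by linarith [hxx (φ n)]) s hs
    obtain ⟨u', hu', h3⟩ := hA3' (x (φ n)) x₀ (by linarith [hxx (φ n)]) u hu
    set d := ‖ν (φ n)‖ with hd
    have hd0 : 0 < d := hνpos _
    have h4 : ‖s + u‖ ≤ 3 / 2 * d := by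
      have e1 : s + u = ν (φ n) - (ν (φ n) - (s + u)) := by abel
      rw [e1]
      have h5 := norm_sub_le (ν (φ n)) (ν (φ n) - (s + u))
      have h6 : η * d ≤ 1 / 2 * d := mul_le_mul_of_nonneg_right hη1 hd0.le
      linarith
    obtain ⟨h5, h6⟩ := (S i₀).angle _ s hs u hu
    have h7 : (S i₀).K * ‖s + u‖ ≤ (S i₀).K * (3 / 2 * d) := mul_le_mul_of_nonneg_left h4 hK0.le
    have h8 : ‖ν (φ n) - (s' + u')‖ ≤ (1 + 6 * (S i₀).K) * η * d := by
      have e1 : ν (φ n) - (s' + u') = (ν (φ n) - (s + u)) + (s - s') + (u - u') := by abel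
      rw [e1]
      have h9 := norm_add_le ((ν (φ n) - (s + u)) + (s - s')) (u - u')
      have h10 := norm_add_le (ν (φ n) - (s + u)) (s - s')
      have h11 : η * ‖s‖ ≤ η * ((S i₀).K * (3 / 2 * d)) :=
        mul_le_mul_of_nonneg_left (h5.trans h7) hη0.le
      have h12 : η * ‖u‖ ≤ η * ((S i₀).K * (3 / 2 * d)) :=
        mul_le_mul_of_nonneg_left (h6.trans h7) hη0.le
      have h13 : 0 ≤ η * ((S i₀).K * d) := by positivity
      have e2 : (1 + 6 * (S i₀).K) * η * d = η * d + 6 * (η * ((S i₀).K * d)) := by ring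
      have e3 : η * ((S i₀).K * (3 / 2 * d)) = 3 / 2 * (η * ((S i₀).K * d)) := by ring
      rw [e2]
      rw [e3] at h11 h12
      linarith
    refine ⟨d⁻¹ • (s' + u'), V.smul_mem _ (Submodule.add_mem_sup hs' hu'), ?_⟩
    have h9 : dist (m (φ n)) (d⁻¹ • (s' + u')) ≤ ε / 2 := by
      rw [dist_eq_norm]
      have e1 : m (φ n) - d⁻¹ • (s' + u') = d⁻¹ • (ν (φ n) - (s' + u')) := by
        rw [smul_sub]
      rw [e1, norm_smul, norm_inv, Real.norm_eq_abs, abs_of_pos hd0]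
      calc d⁻¹ * ‖ν (φ n) - (s' + u')‖ ≤ d⁻¹ * ((1 + 6 * (S i₀).K) * η * d) :=
            mul_le_mul_of_nonneg_left h8 (by positivity)
        _ = (1 + 6 * (S i₀).K) * η := by field_simp
        _ ≤ ε / 2 := hη2
    have h10 := dist_triangle l (m (φ n)) (d⁻¹ • (s' + u'))
    rw [dist_comm l (m (φ n))] at h10
    linarith
  have hle : (⨆ i, (S i).Vu x₀) ≤ (ℝ ∙ l)ᗮ := by
    apply iSup_le
    intro i w hw
    rw [Submodule.mem_orthogonal_singleton_iff_inner_right]
    exact hlorth i w hw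
  have h1 : l ∈ (ℝ ∙ l)ᗮ := hle (hspan hlV)
  rw [Submodule.mem_orthogonal_singleton_iff_inner_right, real_inner_self_eq_norm_sq, hln] at h1
  norm_num at h1

end Pool.Agent.W5h13.LS
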