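import Pool.Agent.H66.L.T9f66d723.W5h13.LS.E2

set_option autoImplicit false
set_option linter.unusedSectionVars false

open scoped Manifold ContDiff Topology Bundle
open Set Filter Bundle

namespace Pool.Agent.W5h13.LS

open Pool.Agent.H789R2.AN Pool.Agent.H721R2 Pool.Agent.TH289

variable {E : Type*} [NormedAddCommGroup E] [NormedSpace ℝ E] [FiniteDimensional ℝ E]
  {M : Type*} [TopologicalSpace M] [T2Space M] [CompactSpace M] [ConnectedSpace M]
  [ChartedSpace E M] [IsManifold 𝓘(ℝ, E) ∞ M]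

theorem man_family {ι : Type*} [Nonempty ι] (f : ι → Diffeomorph 𝓘(ℝ, E) 𝓘(ℝ, E) M M 1)
    (Es Eu : ι → ∀ x : M, Submodule ℝ (TangentSpace 𝓘(ℝ, E) x))
    (hA : ∀ i, IsAnosov (f i) (Es i) (Eu i))
    (hconn : ∀ i j, Relation.EqvGen (fun i j => (∀ x, Eu i x ≤ Eu j x) ∧
      InvariantField (f j) (Es i) ∧ InvariantField (f j) (Eu i)) i j) :
    (∀ i, {A : Set M | ClosedLeafUnion (f i).symm A}.Finite) ∧
    (∀ i j (A : Set M), ClosedLeafUnion (f i).symm A → ClosedLeafUnion (f j).symm A) ∧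
    [∀ i, TopTransitive (f i),
      ∃ i, TopTransitive (f i),
      ∀ i x, Dense (Leaf (f i).symm x),
      ∃ i, (interior {x | MinLeaf (f i).symm x}).Nonempty,
      ∃ i j x, MinLeaf (f i).symm x ∧ MinLeaf (f j) x,
      ∃ i, ∀ q r : LeafSpace (f i).symm,
        ∃ φ : LeafSpace (f i).symm ≃ₜ LeafSpace (f i).symm, φ q = r,
      ∃ (Γ : Set (M → M)) (Φ : Set (M ≃ₜ M)),
        (∀ γ ∈ Γ, ∃ i j, LeafMap (f i).symm (f j).symm γ) ∧
        (∀ φ ∈ Φ, ∃ i, Contracts (f i).toHomeomorph φ) ∧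
        ∀ A : Set M, A.Nonempty → (∀ i, ClosedLeafUnion (f i).symm A) → (∀ γ ∈ Γ, MapsTo γ A A) →
          (∀ φ ∈ Φ, ∀ x ∈ A, Leaf φ x ⊆ A) →
          (interior A).Nonempty ∨ ∃ x ∈ A, ⨆ i, Eu i x = ⊤].TFAE := by
  obtain ⟨m, e, he, hemb, hinj⟩ := exists_embedding_euclidean_of_compact (I := 𝓘(ℝ, E)) (M := M)
  let _ : MetricSpace M := hemb.isEmbedding.comapMetricSpace e
  have hiso : ∀ x y : M, dist x y = ‖e x - e y‖ := fun x y => dist_eq_norm (e x) (e y)
  have he1 : ContMDiff 𝓘(ℝ, E) (𝓡 m) 1 e := he.of_le (by simp)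
  have hE := fun i => eanosov_of_isAnosov e he1 hinj (f i) (Es i) (Eu i) (hA i)
  choose C a b Ls Lu hE using hE
  have hgood := fun i => exists_good hiso he1 hinj (hE i)
  choose N S c hG using hgood
  have heq : ∀ A, IsClosed A → ∀ i j, (Sat (f i).toHomeomorph A ↔ Sat (f j).toHomeomorph A) := by
    intro A hAc i j
    have h := hconn i j
    induction h with
    | rel i j h =>
      obtain ⟨h1, h2, h3⟩ := h
      have key : ∀ V : ∀ x : M, Submodule ℝ (TangentSpace 𝓘(ℝ, E) x), InvariantField (f j) V →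
          ∀ x, ∀ v ∈ V x, dg E (f j).toHomeomorph x v ∈ V ((f j).toHomeomorph x) := by
        intro V hV x v hv
        have h4 := hV x
        have h5 : mfderiv 𝓘(ℝ, E) 𝓘(ℝ, E) (f j) x v ∈ V (f j x) := by
          rw [← h4]
          exact ⟨v, hv, rfl⟩
        exact h5
      exact edge hiso he1 hinj (hG i) (hE i) (hE j) h1 (key _ h2) (key _ h3) hAc
    | refl i => exact Iff.rfl
    | symm i j _ ih => exact ih.symm
    | trans i j k _ _ ih1 ih2 => exact ih1.trans ih2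
  have hiff : ∀ i (A : Set M), ClosedLeafUnion (f i).symm A ↔
      IsClosed A ∧ Sat (f i).toHomeomorph A := fun i A =>
    closedLeafUnion_iff (f i).toHomeomorph A
  refine ⟨fun i => ?_, fun i j A hAi => ?_, family_met (f := fun i => (f i).toHomeomorph) hG heq⟩
  · refine (hG i).finite.subset fun A hA => ?_
    exact (hiff i A).mp hA
  · rw [hiff] at hAi ⊢
    exact ⟨hAi.1, (heq A hAi.1 i j).mp hAi.2⟩

end Pool.Agent.W5h13.LS
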